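import Pool.Agent.Q198.Hit.Defs
import Pool.Agent.H751R2.GN.TONB
import Pool.Agent.H751R2.GN.TSCH

/-! # Linear algebra: Schur triangularisation and the commutator estimate -/

namespace Q198.Hit

open Complex Matrix
open scoped ComplexOrder

variable {n : ℕ}

/-- squared Hilbert-Schmidt norm -/
noncomputable def hs2 (M : Matrix (Fin n) (Fin n) ℂ) : ℝ := ∑ i, ∑ j, ‖M i j‖ ^ 2

lemma trace_mul_conjTranspose_self (M : Matrix (Fin n) (Fin n) ℂ) :
    (M * Mᴴ).trace = (hs2 M : ℂ) := by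
  simp only [Matrix.trace, Matrix.diag_apply, Matrix.mul_apply, Matrix.conjTranspose_apply, hs2]
  push_cast
  refine Finset.sum_congr rfl fun i _ => Finset.sum_congr rfl fun j _ => ?_
  rw [Complex.star_def, Complex.mul_conj, Complex.normSq_eq_norm_sq]
  push_cast; rfl

lemma hs2_nonneg (M : Matrix (Fin n) (Fin n) ℂ) : 0 ≤ hs2 M :=
  Finset.sum_nonneg fun _ _ => Finset.sum_nonneg fun _ _ => by positivity

lemma hs2_unitary {U M : Matrix (Fin n) (Fin n) ℂ} (hU : U * Uᴴ = 1) :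
    hs2 (Uᴴ * M * U) = hs2 M := by
  have h : ((hs2 (Uᴴ * M * U) : ℝ) : ℂ) = (hs2 M : ℝ) := by
    rw [← trace_mul_conjTranspose_self, ← trace_mul_conjTranspose_self]
    have e : Uᴴ * M * U * (Uᴴ * M * U)ᴴ = Uᴴ * (M * Mᴴ * U) := by
      simp only [Matrix.conjTranspose_mul, Matrix.conjTranspose_conjTranspose]
      calc Uᴴ * M * U * (Uᴴ * (Mᴴ * U)) = Uᴴ * M * (U * Uᴴ) * (Mᴴ * U) := by
            simp only [Matrix.mul_assoc]
        _ = _ := by rw [hU, Matrix.mul_one]; simp only [Matrix.mul_assoc]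
    rw [e, Matrix.trace_mul_comm, Matrix.mul_assoc, hU, Matrix.mul_one]
  exact_mod_cast h

/-- the sum of the squares of the moduli of the eigenvalues -/
noncomputable def ev2 (M : Matrix (Fin n) (Fin n) ℂ) : ℝ :=
  (M.charpoly.roots.map (fun c => ‖c‖ ^ 2)).sum

/-- a constant depending only on the rank -/
noncomputable def Cn (n : ℕ) : ℝ := 1 + ∑ i : Fin n, ((i : ℕ) : ℝ) ^ 2

lemma Cn_pos (n : ℕ) : 0 < Cn n := by
  have : 0 ≤ ∑ i : Fin n, ((i : ℕ) : ℝ) ^ 2 := Finset.sum_nonneg fun _ _ => by positivity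
  unfold Cn; linarith

/-- off diagonal part -/
noncomputable def off2 (T : Matrix (Fin n) (Fin n) ℂ) : ℝ :=
  ∑ i, ∑ j, if i = j then 0 else ‖T i j‖ ^ 2

lemma hs2_eq (T : Matrix (Fin n) (Fin n) ℂ) : hs2 T = ∑ i, ‖T i i‖ ^ 2 + off2 T := by
  unfold hs2 off2
  rw [← Finset.sum_add_distrib]
  refine Finset.sum_congr rfl fun i _ => ?_
  rw [← Finset.sum_erase_add _ _ (Finset.mem_univ i), add_comm,
    ← Finset.sum_erase_add (f := fun j => if i = j then 0 else ‖T i j‖ ^ 2) _ (Finset.mem_univ i)]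
  simp only [if_true, add_zero]
  congr 1
  refine Finset.sum_congr rfl fun j hj => ?_
  rw [if_neg (Finset.ne_of_mem_erase hj).symm]

/-- diagonal of the commutator -/
lemma comm_diag (T : Matrix (Fin n) (Fin n) ℂ) (i : Fin n) :
    (T * Tᴴ - Tᴴ * T) i i = ((∑ j, ‖T i j‖ ^ 2 - ∑ j, ‖T j i‖ ^ 2 : ℝ) : ℂ) := by
  simp only [Matrix.sub_apply, Matrix.mul_apply, Matrix.conjTranspose_apply]
  push_cast
  congr 1
  · refine Finset.sum_congr rfl fun j _ => ?_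
    rw [Complex.star_def, Complex.mul_conj, Complex.normSq_eq_norm_sq]; push_cast; rfl
  · refine Finset.sum_congr rfl fun j _ => ?_
    rw [Complex.star_def, mul_comm, Complex.mul_conj, Complex.normSq_eq_norm_sq]; push_cast; rfl

lemma off2_le (T : Matrix (Fin n) (Fin n) ℂ) (hT : ∀ i j : Fin n, j < i → T i j = 0) :
    off2 T ^ 2 ≤ Cn n * hs2 (T * Tᴴ - Tᴴ * T) := by
  set d : Fin n → ℝ := fun i => ∑ j, ‖T i j‖ ^ 2 - ∑ j, ‖T j i‖ ^ 2 with hd
  have h0 : 0 ≤ off2 T := Finset.sum_nonneg fun i _ => Finset.sum_nonneg fun j _ => by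
    split_ifs <;> positivity
  have h1 : off2 T ≤ ∑ i : Fin n, (-((i : ℕ) : ℝ)) * d i := by
    have e1 : ∑ i : Fin n, (-((i : ℕ) : ℝ)) * d i =
        ∑ i : Fin n, ∑ j : Fin n, (((j : ℕ) : ℝ) - ((i : ℕ) : ℝ)) * ‖T i j‖ ^ 2 := by
      have e2 : ∑ i : Fin n, ∑ j : Fin n, ((j : ℕ) : ℝ) * ‖T i j‖ ^ 2 =
          ∑ i : Fin n, ((i : ℕ) : ℝ) * ∑ j, ‖T j i‖ ^ 2 := by
        rw [Finset.sum_comm]
        refine Finset.sum_congr rfl fun i _ => ?_
        rw [Finset.mul_sum]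
      have e3 : ∑ i : Fin n, ∑ j : Fin n, ((i : ℕ) : ℝ) * ‖T i j‖ ^ 2 =
          ∑ i : Fin n, ((i : ℕ) : ℝ) * ∑ j, ‖T i j‖ ^ 2 := by
        refine Finset.sum_congr rfl fun i _ => ?_
        rw [Finset.mul_sum]
      simp only [sub_mul, Finset.sum_sub_distrib]
      rw [e2, e3, ← Finset.sum_sub_distrib]
      refine Finset.sum_congr rfl fun i _ => ?_
      rw [hd]; ring
    rw [e1]
    unfold off2
    refine Finset.sum_le_sum fun i _ => Finset.sum_le_sum fun j _ => ?_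
    rcases lt_trichotomy i j with h | h | h
    · rw [if_neg (ne_of_lt h)]
      have h2 : ((i : ℕ) : ℝ) + 1 ≤ ((j : ℕ) : ℝ) := by exact_mod_cast h
      nlinarith [sq_nonneg ‖T i j‖]
    · subst h; simp
    · rw [hT i j h]; simp
  have h2 : (∑ i : Fin n, (-((i : ℕ) : ℝ)) * d i) ^ 2 ≤
      (∑ i : Fin n, (-((i : ℕ) : ℝ)) ^ 2) * ∑ i, d i ^ 2 :=
    Finset.sum_mul_sq_le_sq_mul_sq _ _ _
  have h3 : ∑ i, d i ^ 2 ≤ hs2 (T * Tᴴ - Tᴴ * T) := by
    unfold hs2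
    refine Finset.sum_le_sum fun i _ => ?_
    have : d i ^ 2 = ‖(T * Tᴴ - Tᴴ * T) i i‖ ^ 2 := by
      rw [comm_diag, Complex.norm_real, Real.norm_eq_abs, sq_abs]
    rw [this]
    exact Finset.single_le_sum (f := fun j => ‖(T * Tᴴ - Tᴴ * T) i j‖ ^ 2)
      (fun j _ => by positivity) (Finset.mem_univ i)
  have h4 : (∑ i : Fin n, (-((i : ℕ) : ℝ)) ^ 2) ≤ Cn n := by
    unfold Cn
    simp only [neg_sq]
    linarith
  have h5 : off2 T ^ 2 ≤ (∑ i : Fin n, (-((i : ℕ) : ℝ)) * d i) ^ 2 := by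
    exact pow_le_pow_left₀ h0 h1 2
  have h6 : 0 ≤ ∑ i, d i ^ 2 := Finset.sum_nonneg fun _ _ => by positivity
  calc off2 T ^ 2 ≤ _ := h5
    _ ≤ _ := h2
    _ ≤ Cn n * ∑ i, d i ^ 2 := mul_le_mul_of_nonneg_right h4 h6
    _ ≤ _ := mul_le_mul_of_nonneg_left h3 (Cn_pos n).le

lemma off2_eq_zero {T : Matrix (Fin n) (Fin n) ℂ} (h : off2 T = 0) :
    T = Matrix.diagonal fun i => T i i := by
  ext i j
  by_cases hij : i = j
  · subst hij; simp
  · rw [Matrix.diagonal_apply_ne _ hij]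
    have h1 : ∀ i ∈ Finset.univ, (0 : ℝ) ≤ ∑ j, (if i = j then 0 else ‖T i j‖ ^ 2) :=
      fun i _ => Finset.sum_nonneg fun j _ => by split_ifs <;> positivity
    have h2 := (Finset.sum_eq_zero_iff_of_nonneg h1).1 h i (Finset.mem_univ i)
    have h3 := (Finset.sum_eq_zero_iff_of_nonneg
      (fun j _ => by split_ifs <;> positivity)).1 h2 j (Finset.mem_univ j)
    rw [if_neg hij] at h3
    simpa using h3

/-- Schur: everything needed about one matrix. -/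
theorem schur_main (B : Matrix (Fin n) (Fin n) ℂ) :
    0 ≤ hs2 B - ev2 B ∧ (hs2 B - ev2 B) ^ 2 ≤ Cn n * hs2 (B * Bᴴ - Bᴴ * B) ∧
    (hs2 B - ev2 B = 0 → ∀ (c : ℂ) (u : Fin n → ℂ),
      (B - c • (1 : Matrix (Fin n) (Fin n) ℂ)) *ᵥ ((B - c • (1 : Matrix (Fin n) (Fin n) ℂ)) *ᵥ u) = 0 →
      (B - c • (1 : Matrix (Fin n) (Fin n) ℂ)) *ᵥ u = 0) := by
  obtain ⟨U, hU1, hU2, hup, hroots⟩ :=
    Pool.Agent.H751R2.GN.t_SCH Pool.Agent.H751R2.GN.t_ONB (Fin n) B n (by simp)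
  set T := Uᴴ * B * U with hT
  have hBT : hs2 B = hs2 T := (hs2_unitary hU2).symm
  have hev : ev2 B = ∑ i, ‖T i i‖ ^ 2 := by
    unfold ev2
    rw [hroots, Multiset.map_map]
    rfl
  have hx : hs2 B - ev2 B = off2 T := by
    rw [hBT, hs2_eq, hev]; ring
  have hC : Uᴴ * (B * Bᴴ - Bᴴ * B) * U = T * Tᴴ - Tᴴ * T := by
    have e1 : T * Tᴴ = Uᴴ * (B * Bᴴ) * U := by
      simp only [hT, Matrix.conjTranspose_mul, Matrix.conjTranspose_conjTranspose]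
      calc Uᴴ * B * U * (Uᴴ * (Bᴴ * U)) = Uᴴ * B * (U * Uᴴ) * (Bᴴ * U) := by
            simp only [Matrix.mul_assoc]
        _ = _ := by rw [hU2, Matrix.mul_one]; simp only [Matrix.mul_assoc]
    have e2 : Tᴴ * T = Uᴴ * (Bᴴ * B) * U := by
      simp only [hT, Matrix.conjTranspose_mul, Matrix.conjTranspose_conjTranspose]
      calc Uᴴ * (Bᴴ * U) * (Uᴴ * B * U) = Uᴴ * Bᴴ * (U * Uᴴ) * (B * U) := by
            simp only [Matrix.mul_assoc]
        _ = _ := by rw [hU2, Matrix.mul_one]; simp only [Matrix.mul_assoc]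
    rw [e1, e2, Matrix.mul_sub, Matrix.sub_mul]
  refine ⟨?_, ?_, ?_⟩
  · rw [hx]
    exact Finset.sum_nonneg fun i _ => Finset.sum_nonneg fun j _ => by split_ifs <;> positivity
  · rw [hx]
    have h1 := off2_le T hup
    rw [← hC, hs2_unitary hU2] at h1
    exact h1
  · intro h c u hu
    rw [hx] at h
    have hD := off2_eq_zero h
    set D : Matrix (Fin n) (Fin n) ℂ := Matrix.diagonal fun i => T i i - c with hDdef
    have hTc : Uᴴ * (B - c • (1 : Matrix (Fin n) (Fin n) ℂ)) * U = D := by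
      rw [Matrix.mul_sub, Matrix.sub_mul, ← hT, Matrix.mul_smul, Matrix.smul_mul, Matrix.mul_one,
        hU1, hD, hDdef]
      ext i j
      by_cases hij : i = j
      · subst hij; simp
      · simp [hij]
    have hB : B - c • (1 : Matrix (Fin n) (Fin n) ℂ) = U * D * Uᴴ := by
      rw [← hTc]
      calc B - c • (1 : Matrix (Fin n) (Fin n) ℂ) =
          (U * Uᴴ) * (B - c • (1 : Matrix (Fin n) (Fin n) ℂ)) * (U * Uᴴ) := by
            rw [hU2, Matrix.one_mul, Matrix.mul_one]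
        _ = _ := by simp only [Matrix.mul_assoc]
    rw [hB] at hu ⊢
    have h1 : D *ᵥ (D *ᵥ (Uᴴ *ᵥ u)) = 0 := by
      have h2 : Uᴴ *ᵥ ((U * D * Uᴴ) *ᵥ ((U * D * Uᴴ) *ᵥ u)) = 0 := by rw [hu]; simp
      simp only [Matrix.mulVec_mulVec] at h2 ⊢
      have e : Uᴴ * (U * D * Uᴴ * (U * D * Uᴴ)) = D * (D * Uᴴ) := by
        calc Uᴴ * (U * D * Uᴴ * (U * D * Uᴴ)) = (Uᴴ * U) * D * (Uᴴ * U) * (D * Uᴴ) := by
              simp only [Matrix.mul_assoc]
          _ = _ := by rw [hU1, Matrix.one_mul, Matrix.mul_one]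
      rwa [e] at h2
    have h3 : D *ᵥ (Uᴴ *ᵥ u) = 0 := by
      funext i
      have h4 := congrFun h1 i
      rw [hDdef, Matrix.mulVec_diagonal, Matrix.mulVec_diagonal] at h4
      rw [hDdef, Matrix.mulVec_diagonal]
      simp only [Pi.zero_apply, mul_eq_zero] at h4 ⊢
      rcases h4 with h4 | h4
      · exact Or.inl h4
      · exact h4
    rw [← Matrix.mulVec_mulVec, ← Matrix.mulVec_mulVec, h3, Matrix.mulVec_zero]

open scoped MatrixOrder in
/-- Factorisation of a positive definite matrix. -/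
lemma exists_factor {H : Matrix (Fin n) (Fin n) ℂ} (hH : H.PosDef) :
    ∃ R : Matrix (Fin n) (Fin n) ℂ, IsUnit R.det ∧ H = Rᴴ * R := by
  obtain ⟨R, hR⟩ := CStarAlgebra.nonneg_iff_eq_star_mul_self.mp
    (Matrix.nonneg_iff_posSemidef.mpr hH.posSemidef)
  rw [Matrix.star_eq_conjTranspose] at hR
  refine ⟨R, ?_, hR⟩
  have h1 : H.det ≠ 0 := hH.det_pos.ne'
  rw [hR, Matrix.det_mul] at h1
  exact isUnit_iff_ne_zero.2 (right_ne_zero_of_mul h1)

section posdef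

variable {H R : Matrix (Fin n) (Fin n) ℂ} (hR : IsUnit R.det) (hH : H = Rᴴ * R)

include hR hH in
lemma adj_eq (A : Matrix (Fin n) (Fin n) ℂ) : R * adj H A * R⁻¹ = (R * A * R⁻¹)ᴴ := by
  have hR' : IsUnit Rᴴ.det := by rw [Matrix.det_conjTranspose]; exact hR.star
  rw [adj, hH, Matrix.mul_inv_rev]
  simp only [Matrix.conjTranspose_mul, Matrix.conjTranspose_nonsing_inv]
  calc R * (R⁻¹ * Rᴴ⁻¹ * Aᴴ * (Rᴴ * R)) * R⁻¹ =
      (R * R⁻¹) * (Rᴴ⁻¹ * (Aᴴ * Rᴴ)) * (R * R⁻¹) := by simp only [Matrix.mul_assoc]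
    _ = _ := by rw [Matrix.mul_nonsing_inv _ hR, Matrix.one_mul, Matrix.mul_one]

include hR in
lemma conj_mul (A B : Matrix (Fin n) (Fin n) ℂ) :
    R * (A * B) * R⁻¹ = (R * A * R⁻¹) * (R * B * R⁻¹) := by
  calc R * (A * B) * R⁻¹ = R * A * (1 * (B * R⁻¹)) := by simp only [Matrix.mul_assoc, Matrix.one_mul]
    _ = R * A * ((R⁻¹ * R) * (B * R⁻¹)) := by rw [Matrix.nonsing_inv_mul _ hR]
    _ = _ := by simp only [Matrix.mul_assoc]

include hR in
lemma trace_conj (A : Matrix (Fin n) (Fin n) ℂ) : (R * A * R⁻¹).trace = A.trace := by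
  rw [Matrix.trace_mul_comm, ← Matrix.mul_assoc, Matrix.nonsing_inv_mul _ hR, Matrix.one_mul]

include hR in
lemma charpoly_conj (A : Matrix (Fin n) (Fin n) ℂ) : (R * A * R⁻¹).charpoly = A.charpoly := by
  rw [Matrix.charpoly_mul_comm, ← Matrix.mul_assoc, Matrix.nonsing_inv_mul _ hR, Matrix.one_mul]

end posdef

/-- Everything needed about one endomorphism of a Hermitian vector space. -/
theorem herm_main {H : Matrix (Fin n) (Fin n) ℂ} (hH : H.PosDef) (A : Matrix (Fin n) (Fin n) ℂ) :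
    ∃ w c : ℝ, (A * adj H A).trace = (w : ℂ) ∧
    ((A * adj H A - adj H A * A) * (A * adj H A - adj H A * A)).trace = (c : ℂ) ∧
    0 ≤ w ∧ 0 ≤ w - ev2 A ∧ (w - ev2 A) ^ 2 ≤ Cn n * c ∧
    (w - ev2 A = 0 → ∀ (c : ℂ) (u : Fin n → ℂ),
      (A - c • (1 : Matrix (Fin n) (Fin n) ℂ)) *ᵥ ((A - c • (1 : Matrix (Fin n) (Fin n) ℂ)) *ᵥ u) = 0 →
      (A - c • (1 : Matrix (Fin n) (Fin n) ℂ)) *ᵥ u = 0) := by
  obtain ⟨R, hR, hHR⟩ := exists_factor hH
  set B := R * A * R⁻¹ with hB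
  have h1 : (A * adj H A).trace = (hs2 B : ℂ) := by
    rw [← trace_conj hR, conj_mul hR, adj_eq hR hHR, trace_mul_conjTranspose_self]
  have h2 : R * (A * adj H A - adj H A * A) * R⁻¹ = B * Bᴴ - Bᴴ * B := by
    rw [Matrix.mul_sub, Matrix.sub_mul, conj_mul hR, conj_mul hR, adj_eq hR hHR]
  have h3 : (B * Bᴴ - Bᴴ * B)ᴴ = B * Bᴴ - Bᴴ * B := by
    simp [Matrix.conjTranspose_sub, Matrix.conjTranspose_mul]
  have h4 : ((A * adj H A - adj H A * A) * (A * adj H A - adj H A * A)).trace =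
      (hs2 (B * Bᴴ - Bᴴ * B) : ℂ) := by
    rw [← trace_conj hR, conj_mul hR, h2, ← trace_mul_conjTranspose_self, h3]
  have hev : ev2 A = ev2 B := by
    unfold ev2; rw [hB, charpoly_conj hR]
  obtain ⟨s1, s2, s3⟩ := schur_main B
  refine ⟨hs2 B, hs2 (B * Bᴴ - Bᴴ * B), h1, h4, hs2_nonneg B, by rw [hev]; exact s1,
    by rw [hev]; exact s2, ?_⟩
  intro h c u hu
  rw [hev] at h
  have h5 : B - c • (1 : Matrix (Fin n) (Fin n) ℂ) =
      R * (A - c • (1 : Matrix (Fin n) (Fin n) ℂ)) * R⁻¹ := by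
    rw [Matrix.mul_sub, Matrix.sub_mul, ← hB, Matrix.mul_smul, Matrix.smul_mul, Matrix.mul_one,
      Matrix.mul_nonsing_inv _ hR]
  have h6 : ∀ v : Fin n → ℂ, (B - c • (1 : Matrix (Fin n) (Fin n) ℂ)) *ᵥ (R *ᵥ v) =
      R *ᵥ ((A - c • (1 : Matrix (Fin n) (Fin n) ℂ)) *ᵥ v) := by
    intro v
    rw [h5, Matrix.mulVec_mulVec, Matrix.mulVec_mulVec]
    congr 1
    rw [Matrix.mul_assoc, Matrix.nonsing_inv_mul _ hR, Matrix.mul_one]
  have h7 := s3 h c (R *ᵥ u) (by rw [h6, h6, hu, Matrix.mulVec_zero])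
  rw [h6] at h7
  have h8 : R⁻¹ *ᵥ (R *ᵥ ((A - c • (1 : Matrix (Fin n) (Fin n) ℂ)) *ᵥ u)) = 0 := by
    rw [h7, Matrix.mulVec_zero]
  rwa [Matrix.mulVec_mulVec, Matrix.nonsing_inv_mul _ hR, Matrix.one_mulVec] at h8

lemma herm_nonneg {H : Matrix (Fin n) (Fin n) ℂ} (hH : H.PosDef) (A : Matrix (Fin n) (Fin n) ℂ) :
    0 ≤ ((A * adj H A).trace).re := by
  obtain ⟨w, c, h1, -, h2, -⟩ := herm_main hH A
  rw [h1, Complex.ofReal_re]; exact h2

end Q198.Hit
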