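import Mathlib

/-! # The maximum principle argument of Keller and Osserman -/

namespace Q198.Hit

open Complex Filter Topology

/-- second derivative test -/
lemma local_max_second {φ φ1 : ℝ → ℝ} {a : ℝ} (h : IsLocalMax φ 0)
    (h1 : ∀ᶠ t : ℝ in 𝓝 (0 : ℝ), HasDerivAt φ (φ1 t) t) (h2 : HasDerivAt φ1 a 0) : a ≤ 0 := by
  by_contra ha
  push Not at ha
  have e1 : deriv φ =ᶠ[𝓝 0] φ1 := h1.mono fun t ht => ht.deriv
  have e2 : deriv (deriv φ) 0 = a := by
    rw [e1.deriv_eq]; exact h2.deriv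
  have e3 : deriv φ 0 = 0 := h.deriv_eq_zero
  have hc : ContinuousAt φ 0 := (h1.self_of_nhds).continuousAt
  have h3 : IsLocalMin φ 0 := isLocalMin_of_deriv_deriv_pos (by rw [e2]; exact ha) e3 hc
  have h4 : φ =ᶠ[𝓝 0] fun _ => φ 0 := by
    filter_upwards [h, h3] with t ht1 ht2
    exact le_antisymm ht1 ht2
  have h5 : deriv φ =ᶠ[𝓝 0] fun _ => 0 := by
    have := h4.deriv
    refine this.trans ?_
    exact Eventually.of_forall fun t => by simp
  have h6 : deriv (deriv φ) 0 = 0 := by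
    rw [h5.deriv_eq]; simp
  rw [e2] at h6
  exact absurd h6 (ne_of_gt ha)

lemma line_deriv {w : ℂ → ℝ} (hw : ContDiff ℝ 2 w) (z0 e : ℂ) (t : ℝ) :
    HasDerivAt (fun t : ℝ => w (z0 + t * e)) (fderiv ℝ w (z0 + t * e) e) t := by
  have h1 : HasFDerivAt w (fderiv ℝ w (z0 + t * e)) (z0 + t * e) :=
    (hw.differentiable (by norm_num) _).hasFDerivAt
  have h2 : HasDerivAt (fun t : ℝ => z0 + t * e) e t := by
    have : HasDerivAt (fun t : ℝ => ((t : ℝ) : ℂ)) 1 t := Complex.ofRealCLM.hasDerivAt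
    simpa using (this.mul_const e).const_add z0
  exact h1.comp_hasDerivAt t h2

lemma line_deriv2 {w : ℂ → ℝ} (hw : ContDiff ℝ 2 w) (z0 e : ℂ) :
    HasDerivAt (fun t : ℝ => fderiv ℝ w (z0 + t * e) e)
      (fderiv ℝ (fun z => fderiv ℝ w z e) z0 e) 0 := by
  have hd : ContDiff ℝ 1 (fun z => fderiv ℝ w z e) :=
    (hw.fderiv_right (m := 1) (by norm_num)).clm_apply contDiff_const
  have h1 : HasFDerivAt (fun z => fderiv ℝ w z e) (fderiv ℝ (fun z => fderiv ℝ w z e) z0)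
      (z0 + ((0 : ℝ) : ℂ) * e) := by
    simp only [ofReal_zero, zero_mul, add_zero]
    exact (hd.differentiable (by norm_num) _).hasFDerivAt
  have h2 : HasDerivAt (fun t : ℝ => z0 + t * e) e 0 := by
    have : HasDerivAt (fun t : ℝ => ((t : ℝ) : ℂ)) 1 0 := Complex.ofRealCLM.hasDerivAt
    simpa using (this.mul_const e).const_add z0
  exact h1.comp_hasDerivAt 0 h2

/-- comparison along one line -/
lemma line_compare {w : ℂ → ℝ} (hw : ContDiff ℝ 2 w) (z0 e : ℂ) (m ρ α : ℝ) (hρ : 0 < ρ)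
    (hmax : ∀ᶠ t : ℝ in 𝓝 (0 : ℝ), w (z0 + t * e) * (ρ - 2 * α * t - t ^ 2) ^ 2 ≤ m)
    (heq : w z0 * ρ ^ 2 = m) :
    fderiv ℝ (fun z => fderiv ℝ w z e) z0 e ≤ 4 * m / ρ ^ 3 + 24 * m * α ^ 2 / ρ ^ 4 := by
  have hr : ∀ t : ℝ, HasDerivAt (fun t : ℝ => ρ - 2 * α * t - t ^ 2) (-(2 * (α + t))) t := by
    intro t
    have h1 : HasDerivAt (fun t : ℝ => t) 1 t := hasDerivAt_id t
    have h2 := ((h1.const_mul (2 * α)).const_sub ρ).sub (h1.pow 2)
    exact h2.congr_deriv (by simp; ring)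
  have hpos : ∀ᶠ t : ℝ in 𝓝 (0 : ℝ), 0 < ρ - 2 * α * t - t ^ 2 := by
    have : ContinuousAt (fun t : ℝ => ρ - 2 * α * t - t ^ 2) 0 := (hr 0).continuousAt
    have h0 : (0 : ℝ) < (fun t : ℝ => ρ - 2 * α * t - t ^ 2) 0 := by simpa using hρ
    exact this.eventually (lt_mem_nhds h0)
  set φ : ℝ → ℝ := fun t => w (z0 + t * e) - m / (ρ - 2 * α * t - t ^ 2) ^ 2 with hφ
  have hm : IsLocalMax φ 0 := by
    have h0 : φ 0 = 0 := by
      simp only [hφ, ofReal_zero, zero_mul, add_zero, mul_zero, sub_zero, ne_eq, OfNat.ofNat_ne_zero,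
        not_false_eq_true, zero_pow]
      rw [← heq]; field_simp; ring
    filter_upwards [hmax, hpos] with t h1 h2
    rw [h0]
    simp only [hφ]
    rw [sub_nonpos, le_div_iff₀ (by positivity)]
    exact h1
  set φ1 : ℝ → ℝ := fun t => fderiv ℝ w (z0 + t * e) e -
    4 * m * (α + t) / (ρ - 2 * α * t - t ^ 2) ^ 3 with hφ1
  have h1 : ∀ᶠ t : ℝ in 𝓝 (0 : ℝ), HasDerivAt φ (φ1 t) t := by
    filter_upwards [hpos] with t ht
    refine (line_deriv hw z0 e t).sub ?_
    have h3 := ((hr t).fun_pow 2).inv (by positivity)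
    have h4 := h3.const_mul m
    refine (h4.congr_deriv ?_).congr_of_eventuallyEq (Eventually.of_forall fun s => ?_)
    · have := ht.ne'
      field_simp
      ring
    · simp [div_eq_mul_inv]
  have h2 : HasDerivAt φ1 (fderiv ℝ (fun z => fderiv ℝ w z e) z0 e -
      (4 * m / ρ ^ 3 + 24 * m * α ^ 2 / ρ ^ 4)) 0 := by
    refine (line_deriv2 hw z0 e).sub ?_
    have h3 : HasDerivAt (fun t : ℝ => 4 * m * (α + t)) (4 * m) 0 := by
      simpa using ((hasDerivAt_id (0 : ℝ)).const_add α).const_mul (4 * m)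
    have h4 := h3.fun_div ((hr 0).fun_pow 3) (by simpa using hρ.ne')
    refine h4.congr_deriv ?_
    simp only [mul_zero, sub_zero, ne_eq, OfNat.ofNat_ne_zero, not_false_eq_true, zero_pow, add_zero]
    have := hρ.ne'
    field_simp
    norm_num
    ring
  have := local_max_second hm h1 h2
  linarith

/-- Keller and Osserman: a nonnegative entire solution of `Δ w / 4 ≥ c w²` vanishes. -/
theorem keller_osserman {w : ℂ → ℝ} (hw : ContDiff ℝ 2 w) {c : ℝ} (hc : 0 < c)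
    (h0 : ∀ z, 0 ≤ w z)
    (hL : ∀ z, c * w z ^ 2 ≤
      (fderiv ℝ (fun z => fderiv ℝ w z 1) z 1 + fderiv ℝ (fun z => fderiv ℝ w z I) z I) / 4) :
    w 0 = 0 := by
  have key : ∀ R : ℝ, 0 < R → c * (w 0 * R ^ 2) ≤ 6 := by
    intro R hR
    by_contra hcon
    push Not at hcon
    set G : ℂ → ℝ := fun z => w z * (R ^ 2 - ‖z‖ ^ 2) ^ 2 with hG
    have hGc : Continuous G := by
      have := hw.continuous
      fun_prop
    obtain ⟨z0, hz0, hmax⟩ := (isCompact_closedBall (0 : ℂ) R).exists_isMaxOn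
      ⟨0, Metric.mem_closedBall_self hR.le⟩ hGc.continuousOn
    have hG0 : G 0 ≤ G z0 := hmax (Metric.mem_closedBall_self hR.le)
    have hG0' : G 0 = w 0 * R ^ 4 := by simp only [hG, norm_zero]; ring
    have hw0 : 0 < w 0 := by
      rcases (h0 0).lt_or_eq with h | h
      · exact h
      · rw [← h] at hcon; norm_num at hcon
    have hmpos : 0 < G z0 := lt_of_lt_of_le (by rw [hG0']; positivity) hG0
    have hz0R : ‖z0‖ ≤ R := by simpa using hz0
    have hz0' : ‖z0‖ < R := by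
      rcases hz0R.lt_or_eq with h | h
      · exact h
      · simp only [hG, h] at hmpos; norm_num at hmpos
    set ρ : ℝ := R ^ 2 - ‖z0‖ ^ 2 with hρ
    have hρpos : 0 < ρ := by
      have := norm_nonneg z0
      nlinarith
    have hsq : ‖z0‖ ^ 2 = z0.re ^ 2 + z0.im ^ 2 := by
      rw [← Complex.normSq_eq_norm_sq, Complex.normSq_apply]; ring
    have hev : ∀ e : ℂ, ∀ᶠ t : ℝ in 𝓝 (0 : ℝ), G (z0 + t * e) ≤ G z0 := by
      intro e
      have h1 : Tendsto (fun t : ℝ => z0 + t * e) (𝓝 0) (𝓝 z0) := by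
        have : Continuous (fun t : ℝ => z0 + t * e) := by fun_prop
        have h2 := this.tendsto 0
        rwa [ofReal_zero, zero_mul, add_zero] at h2
      have h2 : Metric.ball (0 : ℂ) R ∈ 𝓝 z0 :=
        Metric.isOpen_ball.mem_nhds (by simpa using hz0')
      filter_upwards [h1 h2] with t ht
      exact hmax (Metric.ball_subset_closedBall ht)
    have c1 := line_compare hw z0 1 (G z0) ρ z0.re hρpos (by
      filter_upwards [hev 1] with t ht
      convert ht using 3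
      rw [hρ, hsq, ← Complex.normSq_eq_norm_sq, Complex.normSq_apply]
      simp; ring) rfl
    have c2 := line_compare hw z0 I (G z0) ρ z0.im hρpos (by
      filter_upwards [hev I] with t ht
      convert ht using 3
      rw [hρ, hsq, ← Complex.normSq_eq_norm_sq, Complex.normSq_apply]
      simp; ring) rfl
    have h3 := hL z0
    have h4 : c * w z0 ^ 2 ≤ (8 * G z0 / ρ ^ 3 + 24 * G z0 * ‖z0‖ ^ 2 / ρ ^ 4) / 4 := by
      have : 8 * G z0 / ρ ^ 3 + 24 * G z0 * ‖z0‖ ^ 2 / ρ ^ 4 =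
          (4 * G z0 / ρ ^ 3 + 24 * G z0 * z0.re ^ 2 / ρ ^ 4) +
          (4 * G z0 / ρ ^ 3 + 24 * G z0 * z0.im ^ 2 / ρ ^ 4) := by rw [hsq]; ring
      rw [this]
      linarith
    have h5 : c * G z0 ^ 2 ≤ 6 * G z0 * R ^ 2 := by
      have e1 : G z0 = w z0 * ρ ^ 2 := rfl
      have h6 := mul_le_mul_of_nonneg_right h4 (show (0 : ℝ) ≤ ρ ^ 4 by positivity)
      have e2 : c * w z0 ^ 2 * ρ ^ 4 = c * G z0 ^ 2 := by rw [e1]; ring
      have e3 : (8 * G z0 / ρ ^ 3 + 24 * G z0 * ‖z0‖ ^ 2 / ρ ^ 4) / 4 * ρ ^ 4 =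
          2 * G z0 * ρ + 6 * G z0 * ‖z0‖ ^ 2 := by
        have := hρpos.ne'
        field_simp
        ring
      rw [e2, e3] at h6
      have h7 : 2 * G z0 * ρ + 6 * G z0 * ‖z0‖ ^ 2 ≤ 6 * G z0 * R ^ 2 := by
        have : 2 * G z0 * ρ + 6 * G z0 * ‖z0‖ ^ 2 = G z0 * (2 * R ^ 2 + 4 * ‖z0‖ ^ 2) := by
          rw [hρ]; ring
        rw [this]
        have h8 : 2 * R ^ 2 + 4 * ‖z0‖ ^ 2 ≤ 6 * R ^ 2 := by
          have := norm_nonneg z0
          nlinarith
        nlinarith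
      linarith
    have h6 : c * G z0 ≤ 6 * R ^ 2 := by
      have : G z0 * (c * G z0) ≤ G z0 * (6 * R ^ 2) := by nlinarith
      exact le_of_mul_le_mul_left this hmpos
    have h7 : c * (w 0 * R ^ 4) ≤ 6 * R ^ 2 := by
      rw [← hG0']
      exact (mul_le_mul_of_nonneg_left hG0 hc.le).trans h6
    have h8 : (c * (w 0 * R ^ 2)) * R ^ 2 ≤ 6 * R ^ 2 := by
      calc (c * (w 0 * R ^ 2)) * R ^ 2 = c * (w 0 * R ^ 4) := by ring
        _ ≤ _ := h7
    have h9 : c * (w 0 * R ^ 2) ≤ 6 := le_of_mul_le_mul_right h8 (by positivity)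
    linarith
  rcases (h0 0).lt_or_eq with h | h
  · exfalso
    have hk : 0 < c * w 0 := by positivity
    have h1 := key (Real.sqrt (7 / (c * w 0))) (Real.sqrt_pos.2 (by positivity))
    rw [Real.sq_sqrt (by positivity)] at h1
    have h2 : c * (w 0 * (7 / (c * w 0))) = 7 := by field_simp
    linarith
  · exact h.symm

end Q198.Hit
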