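import Pool.Agent.Q198.Hit.Calc
import Pool.Agent.Q198.Hit.Lin
import Pool.Agent.Q198.Hit.Max

/-! # The Bochner type formula and the Liouville theorem -/

namespace Q198.Hit

open Complex Matrix Filter Topology
open scoped ContDiff ComplexOrder

variable {n : ℕ}

lemma mdz_mul {F G : ℂ → Matrix (Fin n) (Fin n) ℂ} {z : ℂ} (hF : MS F z) (hG : MS G z) :
    mdz (fun w => F w * G w) z = mdz F z * G z + F z * mdz G z := by
  rw [mdz_eq_mDD]; exact mDD_mul hF hG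

lemma mdzbar_mul {F G : ℂ → Matrix (Fin n) (Fin n) ℂ} {z : ℂ} (hF : MS F z) (hG : MS G z) :
    mdzbar (fun w => F w * G w) z = mdzbar F z * G z + F z * mdzbar G z := by
  rw [mdzbar_eq_mDD]; exact mDD_mul hF hG

lemma mdzbar_add {F G : ℂ → Matrix (Fin n) (Fin n) ℂ} {z : ℂ} (hF : MS F z) (hG : MS G z) :
    mdzbar (fun w => F w + G w) z = mdzbar F z + mdzbar G z := by
  rw [mdzbar_eq_mDD]; exact mDD_add hF hG

lemma mdzbar_sub {F G : ℂ → Matrix (Fin n) (Fin n) ℂ} {z : ℂ} (hF : MS F z) (hG : MS G z) :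
    mdzbar (fun w => F w - G w) z = mdzbar F z - mdzbar G z := by
  rw [mdzbar_eq_mDD]; exact mDD_sub hF hG

lemma mdz_inv {F : ℂ → Matrix (Fin n) (Fin n) ℂ} {z : ℂ} (hF : MS F z) (h0 : (F z).det ≠ 0) :
    mdz (fun w => (F w)⁻¹) z = -((F z)⁻¹ * mdz F z * (F z)⁻¹) := by
  rw [mdz_eq_mDD]; exact mDD_inv hF h0

lemma mdzbar_inv {F : ℂ → Matrix (Fin n) (Fin n) ℂ} {z : ℂ} (hF : MS F z) (h0 : (F z).det ≠ 0) :
    mdzbar (fun w => (F w)⁻¹) z = -((F z)⁻¹ * mdzbar F z * (F z)⁻¹) := by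
  rw [mdzbar_eq_mDD]; exact mDD_inv hF h0

lemma MS.mdz {F : ℂ → Matrix (Fin n) (Fin n) ℂ} {z : ℂ} (hF : MS F z) : MS (mdz F) z := by
  rw [mdz_eq_mDD]; exact hF.mDD _ _

lemma MS.mdzbar {F : ℂ → Matrix (Fin n) (Fin n) ℂ} {z : ℂ} (hF : MS F z) : MS (mdzbar F) z := by
  rw [mdzbar_eq_mDD]; exact hF.mDD _ _

lemma dz_trace {F : ℂ → Matrix (Fin n) (Fin n) ℂ} {z : ℂ} (hF : MS F z) :
    dz (fun w => (F w).trace) z = (mdz F z).trace := by
  rw [mdz_eq_mDD, dz_eq_DD]; exact DD_trace hF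

lemma dzbar_trace {F : ℂ → Matrix (Fin n) (Fin n) ℂ} {z : ℂ} (hF : MS F z) :
    dzbar (fun w => (F w).trace) z = (mdzbar F z).trace := by
  rw [mdzbar_eq_mDD, dzbar_eq_DD]; exact DD_trace hF

section holo

variable {Φ : ℂ → Matrix (Fin n) (Fin n) ℂ} (hΦ : ∀ i j, Differentiable ℂ (fun z => Φ z i j))

include hΦ in
lemma MS_holo (z : ℂ) : MS Φ z := fun i j =>
  ((hΦ i j).contDiff.restrict_scalars ℝ).contDiffAt

include hΦ in
lemma mdzbar_holo (z : ℂ) : mdzbar Φ z = 0 := by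
  ext i j
  simp only [mdzbar, Matrix.of_apply, Matrix.zero_apply]
  exact dzbar_holo (hΦ i j z).hasDerivAt

include hΦ in
lemma mdz_holo : mdz Φ = fun z => Matrix.of fun i j => deriv (fun w => Φ w i j) z := by
  funext z
  ext i j
  simp only [mdz, Matrix.of_apply]
  exact dz_holo (hΦ i j z).hasDerivAt

include hΦ in
lemma mdz_holo_holo (i j : Fin n) : Differentiable ℂ (fun z => mdz Φ z i j) := by
  rw [mdz_holo hΦ]
  simp only [Matrix.of_apply]
  intro z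
  exact ((hΦ i j).contDiff (n := 2)).differentiable_deriv_two z

end holo

section boch

variable {H Φ : ℂ → Matrix (Fin n) (Fin n) ℂ} (hH : ∀ z, MS H z) (hpos : ∀ z, (H z).PosDef)
  (hΦ : ∀ i j, Differentiable ℂ (fun z => Φ z i j))

/-- the Chern connection form -/
noncomputable def Gf (H : ℂ → Matrix (Fin n) (Fin n) ℂ) (z : ℂ) : Matrix (Fin n) (Fin n) ℂ :=
  (H z)⁻¹ * mdz H z

/-- the adjoint Higgs field -/
noncomputable def Sf (H Φ : ℂ → Matrix (Fin n) (Fin n) ℂ) (z : ℂ) : Matrix (Fin n) (Fin n) ℂ :=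
  adj (H z) (Φ z)

/-- the covariant derivative of the Higgs field -/
noncomputable def Kf (H Φ : ℂ → Matrix (Fin n) (Fin n) ℂ) (z : ℂ) : Matrix (Fin n) (Fin n) ℂ :=
  mdz Φ z + (Gf H z * Φ z - Φ z * Gf H z)

include hpos in
lemma det_ne (z : ℂ) : (H z).det ≠ 0 := (hpos z).det_pos.ne'

include hH hpos in
lemma MS_G (z : ℂ) : MS (Gf H) z := ((hH z).inv (det_ne hpos z)).mul (hH z).mdz

include hH hpos hΦ in
lemma MS_S (z : ℂ) : MS (Sf H Φ) z :=
  (((hH z).inv (det_ne hpos z)).mul (MS_holo hΦ z).conjTranspose).mul (hH z)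

include hH hpos hΦ in
lemma MS_K (z : ℂ) : MS (Kf H Φ) z :=
  (MS_holo hΦ z).mdz.add (((MS_G hH hpos z).mul (MS_holo hΦ z)).sub
    ((MS_holo hΦ z).mul (MS_G hH hpos z)))

include hH hpos hΦ in
lemma mdz_S (z : ℂ) : mdz (Sf H Φ) z = Sf H Φ z * Gf H z - Gf H z * Sf H Φ z := by
  have h0 := det_ne hpos z
  have hi := (hH z).inv h0
  have hc := (MS_holo hΦ z).conjTranspose
  have e : Sf H Φ = fun w => (H w)⁻¹ * (Φ w)ᴴ * H w := rfl
  have hu : IsUnit (H z).det := isUnit_iff_ne_zero.2 h0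
  rw [e, mdz_mul (hi.mul hc) (hH z), mdz_mul hi hc, mdz_inv (hH z) h0,
    mdz_conjTranspose (MS_holo hΦ z), mdzbar_holo hΦ]
  simp only [Gf, Matrix.conjTranspose_zero, Matrix.mul_zero, add_zero]
  have h1 : H z * (H z)⁻¹ = 1 := Matrix.mul_nonsing_inv _ hu
  have e2 : (H z)⁻¹ * (Φ z)ᴴ * H z * ((H z)⁻¹ * mdz H z) = (H z)⁻¹ * (Φ z)ᴴ * mdz H z := by
    calc (H z)⁻¹ * (Φ z)ᴴ * H z * ((H z)⁻¹ * mdz H z) =
        (H z)⁻¹ * (Φ z)ᴴ * (H z * (H z)⁻¹) * mdz H z := by simp only [Matrix.mul_assoc]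
      _ = _ := by rw [h1, Matrix.mul_one]
  rw [e2]
  simp only [Matrix.neg_mul, Matrix.mul_assoc]
  abel

include hH hpos in
lemma mdzbar_H (z : ℂ) : mdzbar H z = (mdz H z)ᴴ := by
  have e : H = fun w => (H w)ᴴ := by
    funext w; exact (hpos w).isHermitian.eq.symm
  conv_lhs => rw [e]
  exact mdzbar_conjTranspose (hH z)

lemma adj_add (H A B : Matrix (Fin n) (Fin n) ℂ) : adj H (A + B) = adj H A + adj H B := by
  simp only [adj, Matrix.conjTranspose_add, Matrix.mul_add, Matrix.add_mul]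

lemma adj_sub (H A B : Matrix (Fin n) (Fin n) ℂ) : adj H (A - B) = adj H A - adj H B := by
  simp only [adj, Matrix.conjTranspose_sub, Matrix.mul_sub, Matrix.sub_mul]

lemma adj_mul {H : Matrix (Fin n) (Fin n) ℂ} (hu : IsUnit H.det) (A B : Matrix (Fin n) (Fin n) ℂ) :
    adj H (A * B) = adj H B * adj H A := by
  simp only [adj, Matrix.conjTranspose_mul]
  have h1 : H * H⁻¹ = 1 := Matrix.mul_nonsing_inv _ hu
  calc H⁻¹ * (Bᴴ * Aᴴ) * H = H⁻¹ * Bᴴ * 1 * Aᴴ * H := by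
        simp only [Matrix.mul_assoc, Matrix.one_mul]
    _ = H⁻¹ * Bᴴ * (H * H⁻¹) * Aᴴ * H := by rw [h1]
    _ = _ := by simp only [Matrix.mul_assoc]

include hH hpos in
lemma adj_G (z : ℂ) : adj (H z) (Gf H z) = (H z)⁻¹ * mdzbar H z := by
  have h0 := det_ne hpos z
  have hu : IsUnit (H z).det := isUnit_iff_ne_zero.2 h0
  have h1 : (H z)⁻¹ * H z = 1 := Matrix.nonsing_inv_mul _ hu
  have h2 : ((H z)⁻¹)ᴴ = (H z)⁻¹ := by
    rw [Matrix.conjTranspose_nonsing_inv, (hpos z).isHermitian.eq]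
  rw [mdzbar_H hH hpos]
  simp only [adj, Gf, Matrix.conjTranspose_mul, h2]
  rw [Matrix.mul_assoc, Matrix.mul_assoc, h1, Matrix.mul_one]

include hH hpos hΦ in
lemma mdzbar_S (z : ℂ) : mdzbar (Sf H Φ) z = adj (H z) (Kf H Φ z) := by
  have h0 := det_ne hpos z
  have hi := (hH z).inv h0
  have hc := (MS_holo hΦ z).conjTranspose
  have e : Sf H Φ = fun w => (H w)⁻¹ * (Φ w)ᴴ * H w := rfl
  have hu : IsUnit (H z).det := isUnit_iff_ne_zero.2 h0
  have h1 : H z * (H z)⁻¹ = 1 := Matrix.mul_nonsing_inv _ hu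
  rw [e, mdzbar_mul (hi.mul hc) (hH z), mdzbar_mul hi hc, mdzbar_inv (hH z) h0,
    mdzbar_conjTranspose (MS_holo hΦ z), Kf, adj_add, adj_sub, adj_mul hu, adj_mul hu,
    adj_G hH hpos]
  have e1 : adj (H z) (Φ z) * ((H z)⁻¹ * mdzbar H z) = (H z)⁻¹ * (Φ z)ᴴ * mdzbar H z := by
    calc adj (H z) (Φ z) * ((H z)⁻¹ * mdzbar H z) =
        (H z)⁻¹ * (Φ z)ᴴ * (H z * (H z)⁻¹) * mdzbar H z := by simp only [adj, Matrix.mul_assoc]
      _ = _ := by rw [h1, Matrix.mul_one]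
  rw [e1]
  simp only [adj, Matrix.neg_mul, Matrix.mul_assoc, Matrix.add_mul]
  abel

include hH hpos hΦ in
lemma dz_W (z : ℂ) : dz (fun w => (Φ w * Sf H Φ w).trace) z = (Kf H Φ z * Sf H Φ z).trace := by
  rw [dz_trace ((MS_holo hΦ z).mul (MS_S hH hpos hΦ z)),
    mdz_mul (MS_holo hΦ z) (MS_S hH hpos hΦ z), mdz_S hH hpos hΦ, Kf]
  simp only [Matrix.trace_add, Matrix.trace_sub, Matrix.mul_sub, Matrix.add_mul, Matrix.sub_mul]
  have e1 : (Φ z * (Sf H Φ z * Gf H z)).trace = (Gf H z * Φ z * Sf H Φ z).trace := by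
    rw [← Matrix.mul_assoc, Matrix.trace_mul_comm, ← Matrix.mul_assoc]
  have e2 : (Φ z * (Gf H z * Sf H Φ z)).trace = (Φ z * Gf H z * Sf H Φ z).trace := by
    rw [← Matrix.mul_assoc]
  rw [e1, e2]

include hH hpos hΦ in
lemma mdzbar_K (z : ℂ) (hit : mdzbar (Gf H) z = Φ z * Sf H Φ z - Sf H Φ z * Φ z) :
    mdzbar (Kf H Φ) z = (Φ z * Sf H Φ z - Sf H Φ z * Φ z) * Φ z -
      Φ z * (Φ z * Sf H Φ z - Sf H Φ z * Φ z) := by
  have hG := MS_G hH hpos z
  have hP := MS_holo hΦ z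
  have e : Kf H Φ = fun w => mdz Φ w + (Gf H w * Φ w - Φ w * Gf H w) := rfl
  rw [e, mdzbar_add hP.mdz ((hG.mul hP).sub (hP.mul hG)), mdzbar_sub (hG.mul hP) (hP.mul hG),
    mdzbar_mul hG hP, mdzbar_mul hP hG, mdzbar_holo hΦ, mdzbar_holo (mdz_holo_holo hΦ), hit]
  simp only [Matrix.mul_zero, Matrix.zero_mul, add_zero, zero_add]

include hH hpos hΦ in
lemma bochner (z : ℂ) (hit : mdzbar (Gf H) z = Φ z * Sf H Φ z - Sf H Φ z * Φ z) :
    dzbar (dz (fun w => (Φ w * Sf H Φ w).trace)) z =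
      ((Φ z * Sf H Φ z - Sf H Φ z * Φ z) * (Φ z * Sf H Φ z - Sf H Φ z * Φ z)).trace +
      (Kf H Φ z * adj (H z) (Kf H Φ z)).trace := by
  have e : dz (fun w => (Φ w * Sf H Φ w).trace) = fun w => (Kf H Φ w * Sf H Φ w).trace := by
    funext w; exact dz_W hH hpos hΦ w
  rw [e, dzbar_trace ((MS_K hH hpos hΦ z).mul (MS_S hH hpos hΦ z)),
    mdzbar_mul (MS_K hH hpos hΦ z) (MS_S hH hpos hΦ z), mdzbar_K hH hpos hΦ z hit,
    mdzbar_S hH hpos hΦ, Matrix.trace_add]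
  congr 1
  set C := Φ z * Sf H Φ z - Sf H Φ z * Φ z with hC
  set S := Sf H Φ z
  have e1 : (C * C).trace = (C * (Φ z * S)).trace - (C * (S * Φ z)).trace := by
    conv_lhs => rw [hC]
    rw [← hC, ← Matrix.trace_sub, ← Matrix.mul_sub]
  have e2 : (Φ z * C * S).trace = (C * (S * Φ z)).trace := by
    rw [Matrix.mul_assoc, Matrix.trace_mul_comm, Matrix.mul_assoc]
  rw [e1, Matrix.sub_mul, Matrix.trace_sub, e2, Matrix.mul_assoc]

end boch

/-- The real part of `∂_z̄ ∂_z` of a real function is a quarter of the Laplacian. -/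
lemma lap_eq {w : ℂ → ℝ} (hw : ContDiff ℝ 2 w) (z : ℂ) :
    (dzbar (dz (fun z => (w z : ℂ))) z).re =
      (fderiv ℝ (fun z => fderiv ℝ w z 1) z 1 + fderiv ℝ (fun z => fderiv ℝ w z I) z I) / 4 := by
  have h1 : ∀ z, HasFDerivAt (fun z => (w z : ℂ)) (Complex.ofRealCLM.comp (fderiv ℝ w z)) z :=
    fun z => Complex.ofRealCLM.hasFDerivAt.comp z (hw.differentiable (by norm_num) z).hasFDerivAt
  have h2 : dz (fun z => (w z : ℂ)) =
      fun z => ((fderiv ℝ w z 1 : ℝ) : ℂ) / 2 - I * ((fderiv ℝ w z I : ℝ) : ℂ) / 2 := by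
    funext z
    rw [dz_of_hasFDerivAt (h1 z)]
    simp only [ContinuousLinearMap.comp_apply, Complex.ofRealCLM_apply]
    ring
  have hd : ∀ e : ℂ, ContDiff ℝ 1 (fun z => fderiv ℝ w z e) := fun e =>
    (hw.fderiv_right (m := 1) (by norm_num)).clm_apply contDiff_const
  have h3 : ∀ e : ℂ, HasFDerivAt (fun z => ((fderiv ℝ w z e : ℝ) : ℂ))
      (Complex.ofRealCLM.comp (fderiv ℝ (fun z => fderiv ℝ w z e) z)) z := fun e =>
    Complex.ofRealCLM.hasFDerivAt.comp z ((hd e).differentiable (by norm_num) z).hasFDerivAt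
  have h4 : HasFDerivAt (fun z => ((fderiv ℝ w z 1 : ℝ) : ℂ) / 2 - I * ((fderiv ℝ w z I : ℝ) : ℂ) / 2)
      ((1 / 2 : ℂ) • (Complex.ofRealCLM.comp (fderiv ℝ (fun z => fderiv ℝ w z 1) z)) -
        (I / 2) • (Complex.ofRealCLM.comp (fderiv ℝ (fun z => fderiv ℝ w z I) z))) z := by
    have h5 := ((h3 1).const_mul (1 / 2 : ℂ)).sub ((h3 I).const_mul (I / 2 : ℂ))
    refine h5.congr_of_eventuallyEq (Eventually.of_forall fun w => ?_)
    simp only [Pi.sub_apply]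
    ring
  rw [h2, dzbar_of_hasFDerivAt h4]
  simp only [_root_.sub_apply, _root_.smul_apply, ContinuousLinearMap.comp_apply,
    Complex.ofRealCLM_apply, smul_eq_mul]
  simp
  ring

/-- Liouville theorem: on a Higgs bundle over `ℂ` with a harmonic metric, whose Higgs field has a
constant characteristic polynomial, the Higgs field is pointwise diagonalizable (here: it has no
Jordan chains of length two). -/
theorem liouville {Φ H : ℂ → Matrix (Fin n) (Fin n) ℂ} (h : IsHarmonicMetric Set.univ Φ H)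
    (hΦ : ∀ i j, Differentiable ℂ (fun z => Φ z i j))
    (hc : ∀ z, (Φ z).charpoly = (Φ 0).charpoly) (c : ℂ) (u : Fin n → ℂ)
    (hu : (Φ 0 - c • (1 : Matrix (Fin n) (Fin n) ℂ)) *ᵥ
      ((Φ 0 - c • (1 : Matrix (Fin n) (Fin n) ℂ)) *ᵥ u) = 0) :
    (Φ 0 - c • (1 : Matrix (Fin n) (Fin n) ℂ)) *ᵥ u = 0 := by
  have hH : ∀ z, MS H z := fun z i j => (h.smooth i j).contDiffAt Filter.univ_mem
  have hpos : ∀ z, (H z).PosDef := fun z => h.posDef z trivial
  have hit : ∀ z, mdzbar (Gf H) z = Φ z * Sf H Φ z - Sf H Φ z * Φ z := fun z => h.hitchin z trivial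
  have hm := fun z => herm_main (hpos z) (Φ z)
  choose W c2 k1 k2 k3 k4 k5 k6 using hm
  have hev : ∀ z, ev2 (Φ z) = ev2 (Φ 0) := fun z => by unfold ev2; rw [hc]
  have hWc : ContDiff ℝ 2 W := by
    have h1 : W = fun z => ((Φ z * Sf H Φ z).trace).re := by
      funext z
      have : (Φ z * Sf H Φ z).trace = (W z : ℂ) := k1 z
      rw [this, Complex.ofReal_re]
    rw [h1, contDiff_iff_contDiffAt]
    intro z
    have h2 : MS (fun w => Φ w * Sf H Φ w) z := (MS_holo hΦ z).mul (MS_S hH hpos hΦ z)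
    have h3 : ContDiffAt ℝ ∞ (fun w => (Φ w * Sf H Φ w).trace) z := by
      simp only [Matrix.trace, Matrix.diag_apply]
      exact ContDiffAt.sum fun i _ => h2 i i
    exact (Complex.reCLM.contDiff.contDiffAt.comp z h3).of_le ENat.LEInfty.out
  set x : ℂ → ℝ := fun z => W z - ev2 (Φ 0) with hx
  have hxc : ContDiff ℝ 2 x := hWc.sub contDiff_const
  have hL : ∀ z, (Cn n)⁻¹ * x z ^ 2 ≤
      (fderiv ℝ (fun z => fderiv ℝ x z 1) z 1 + fderiv ℝ (fun z => fderiv ℝ x z I) z I) / 4 := by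
    intro z
    have e1 : ∀ e : ℂ, (fun z => fderiv ℝ x z e) = fun z => fderiv ℝ W z e := by
      intro e; funext z
      rw [hx, fderiv_sub_const]
    rw [e1, e1, ← lap_eq hWc]
    have e2 : (fun z => (W z : ℂ)) = fun w => (Φ w * Sf H Φ w).trace := by
      funext z; exact (k1 z).symm
    rw [e2, bochner hH hpos hΦ z (hit z)]
    have e3 : ((Φ z * Sf H Φ z - Sf H Φ z * Φ z) * (Φ z * Sf H Φ z - Sf H Φ z * Φ z)).trace =
        (c2 z : ℂ) := k2 z
    rw [e3, Complex.add_re, Complex.ofReal_re]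
    have e4 := herm_nonneg (hpos z) (Kf H Φ z)
    have e5 := k5 z
    rw [hev] at e5
    have e6 : (Cn n)⁻¹ * x z ^ 2 ≤ c2 z := by
      rw [inv_mul_le_iff₀ (Cn_pos n)]
      exact e5
    linarith
  have h0 : ∀ z, 0 ≤ x z := fun z => by
    have := k4 z
    rw [hev] at this
    exact this
  have hfin := keller_osserman hxc (inv_pos.2 (Cn_pos n)) h0 hL
  exact k6 0 hfin c u hu

end Q198.Hit
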