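import Pool.Agent.Q198.Hit.Wirt

/-! # Calculus for matrix valued functions -/

namespace Q198.Hit

open Complex Matrix Filter Topology
open scoped ContDiff ComplexOrder

variable {n : ℕ}

/-- smoothness at a point, entry by entry -/
def MS (F : ℂ → Matrix (Fin n) (Fin n) ℂ) (z : ℂ) : Prop :=
  ∀ i j, ContDiffAt ℝ ∞ (fun w => F w i j) z

/-- general first order derivative -/
noncomputable def DD (a b : ℂ) (f : ℂ → ℂ) (z : ℂ) : ℂ := a * fderiv ℝ f z 1 + b * fderiv ℝ f z I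

/-- general first order derivative, entry by entry -/
noncomputable def mDD (a b : ℂ) (F : ℂ → Matrix (Fin n) (Fin n) ℂ) (z : ℂ) :
    Matrix (Fin n) (Fin n) ℂ := Matrix.of fun i j => DD a b (fun w => F w i j) z

lemma dz_eq_DD : dz = DD (1 / 2) (-I / 2) := by
  funext f z; simp only [dz, DD]; ring

lemma dzbar_eq_DD : dzbar = DD (1 / 2) (I / 2) := by
  funext f z; simp only [dzbar, DD]; ring

lemma mdz_eq_mDD : (mdz : (ℂ → Matrix (Fin n) (Fin n) ℂ) → _) = mDD (1 / 2) (-I / 2) := by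
  funext F z; simp only [mdz, mDD, dz_eq_DD]

lemma mdzbar_eq_mDD : (mdzbar : (ℂ → Matrix (Fin n) (Fin n) ℂ) → _) = mDD (1 / 2) (I / 2) := by
  funext F z; simp only [mdzbar, mDD, dzbar_eq_DD]

section DD

variable {a b : ℂ} {f g : ℂ → ℂ} {z : ℂ}

lemma DD_of_hasFDerivAt {f' : ℂ →L[ℝ] ℂ} (h : HasFDerivAt f f' z) :
    DD a b f z = a * f' 1 + b * f' I := by rw [DD, h.fderiv]

lemma DD_congr (h : f =ᶠ[𝓝 z] g) : DD a b f z = DD a b g z := by
  rw [DD, DD, h.fderiv_eq]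

lemma DD_add (hf : DifferentiableAt ℝ f z) (hg : DifferentiableAt ℝ g z) :
    DD a b (fun w => f w + g w) z = DD a b f z + DD a b g z := by
  rw [DD_of_hasFDerivAt (HasFDerivAt.fun_add hf.hasFDerivAt hg.hasFDerivAt), DD, DD]
  simp only [_root_.add_apply]; ring

lemma DD_sub (hf : DifferentiableAt ℝ f z) (hg : DifferentiableAt ℝ g z) :
    DD a b (fun w => f w - g w) z = DD a b f z - DD a b g z := by
  rw [DD_of_hasFDerivAt (HasFDerivAt.fun_sub hf.hasFDerivAt hg.hasFDerivAt), DD, DD]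
  simp only [_root_.sub_apply]; ring

lemma DD_mul (hf : DifferentiableAt ℝ f z) (hg : DifferentiableAt ℝ g z) :
    DD a b (fun w => f w * g w) z = DD a b f z * g z + f z * DD a b g z := by
  rw [DD_of_hasFDerivAt (HasFDerivAt.fun_mul hf.hasFDerivAt hg.hasFDerivAt), DD, DD]
  simp only [_root_.add_apply, _root_.smul_apply, smul_eq_mul]; ring

lemma DD_sum {ι : Type*} {s : Finset ι} {f : ι → ℂ → ℂ}
    (hf : ∀ i ∈ s, DifferentiableAt ℝ (f i) z) :
    DD a b (fun w => ∑ i ∈ s, f i w) z = ∑ i ∈ s, DD a b (f i) z := by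
  rw [DD_of_hasFDerivAt (HasFDerivAt.fun_sum (fun i hi => (hf i hi).hasFDerivAt))]
  simp only [DD, _root_.sum_apply, Finset.mul_sum]
  rw [← Finset.sum_add_distrib]

lemma DD_const (c : ℂ) : DD a b (fun _ => c) z = 0 := by
  rw [DD_of_hasFDerivAt (hasFDerivAt_const c z)]; simp

end DD

lemma MS.diff {F : ℂ → Matrix (Fin n) (Fin n) ℂ} {z : ℂ} (h : MS F z) (i j : Fin n) :
    DifferentiableAt ℝ (fun w => F w i j) z := (h i j).differentiableAt (by simp)

lemma MS.mul {F G : ℂ → Matrix (Fin n) (Fin n) ℂ} {z : ℂ} (hF : MS F z) (hG : MS G z) :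
    MS (fun w => F w * G w) z := by
  intro i j
  simp only [Matrix.mul_apply]
  exact ContDiffAt.sum fun k _ => (hF i k).mul (hG k j)

lemma MS.add {F G : ℂ → Matrix (Fin n) (Fin n) ℂ} {z : ℂ} (hF : MS F z) (hG : MS G z) :
    MS (fun w => F w + G w) z := by
  intro i j
  simp only [Matrix.add_apply]
  exact (hF i j).add (hG i j)

lemma MS.sub {F G : ℂ → Matrix (Fin n) (Fin n) ℂ} {z : ℂ} (hF : MS F z) (hG : MS G z) :
    MS (fun w => F w - G w) z := by
  intro i j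
  simp only [Matrix.sub_apply]
  exact (hF i j).sub (hG i j)

lemma MS.conjTranspose {F : ℂ → Matrix (Fin n) (Fin n) ℂ} {z : ℂ} (hF : MS F z) :
    MS (fun w => (F w)ᴴ) z := by
  intro i j
  simp only [Matrix.conjTranspose_apply]
  exact (Complex.conjCLE.contDiff (n := ∞)).contDiffAt.comp z (hF j i)

lemma contDiffAt_DD {a b : ℂ} {f : ℂ → ℂ} {z : ℂ} (hf : ContDiffAt ℝ ∞ f z) :
    ContDiffAt ℝ ∞ (DD a b f) z := by
  have h : ContDiffAt ℝ ∞ (fderiv ℝ f) z := hf.fderiv_right (by simp)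
  have h1 : ContDiffAt ℝ ∞ (fun z => fderiv ℝ f z 1) z := h.clm_apply contDiffAt_const
  have h2 : ContDiffAt ℝ ∞ (fun z => fderiv ℝ f z I) z := h.clm_apply contDiffAt_const
  exact (contDiffAt_const.mul h1).add (contDiffAt_const.mul h2)

lemma MS.mDD {F : ℂ → Matrix (Fin n) (Fin n) ℂ} {z : ℂ} (hF : MS F z) (a b : ℂ) :
    MS (mDD a b F) z := fun i j => contDiffAt_DD (hF i j)

lemma MS.det {F : ℂ → Matrix (Fin n) (Fin n) ℂ} {z : ℂ} (hF : MS F z) :
    ContDiffAt ℝ ∞ (fun w => (F w).det) z := by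
  simp only [Matrix.det_apply]
  refine ContDiffAt.sum fun σ _ => ContDiffAt.const_smul _ ?_
  exact contDiffAt_prod fun i _ => hF (σ i) i

lemma MS.adjugate {F : ℂ → Matrix (Fin n) (Fin n) ℂ} {z : ℂ} (hF : MS F z) :
    MS (fun w => (F w).adjugate) z := by
  intro i j
  simp only [Matrix.adjugate_apply]
  refine MS.det (F := fun w => (F w).updateRow j (Pi.single i 1)) ?_
  intro k l
  by_cases hk : k = j
  · subst hk
    simp only [Matrix.updateRow_self]
    exact contDiffAt_const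
  · simp only [Matrix.updateRow_ne hk]
    exact hF k l

lemma MS.inv {F : ℂ → Matrix (Fin n) (Fin n) ℂ} {z : ℂ} (hF : MS F z) (h0 : (F z).det ≠ 0) :
    MS (fun w => (F w)⁻¹) z := by
  intro i j
  have e : (fun w => (F w)⁻¹ i j) = fun w => ((F w).det)⁻¹ * (F w).adjugate i j := by
    funext w
    rw [Matrix.inv_def, Matrix.smul_apply, Ring.inverse_eq_inv', smul_eq_mul]
  rw [e]
  exact (hF.det.inv h0).mul (hF.adjugate i j)

lemma mDD_mul {a b : ℂ} {F G : ℂ → Matrix (Fin n) (Fin n) ℂ} {z : ℂ} (hF : MS F z) (hG : MS G z) :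
    mDD a b (fun w => F w * G w) z = mDD a b F z * G z + F z * mDD a b G z := by
  ext i j
  simp only [mDD, Matrix.of_apply, Matrix.mul_apply, Matrix.add_apply]
  rw [DD_sum (f := fun k w => F w i k * G w k j)
    (fun k _ => (hF.diff i k).fun_mul (hG.diff k j)), ← Finset.sum_add_distrib]
  exact Finset.sum_congr rfl fun k _ => DD_mul (hF.diff i k) (hG.diff k j)

lemma mDD_add {a b : ℂ} {F G : ℂ → Matrix (Fin n) (Fin n) ℂ} {z : ℂ} (hF : MS F z) (hG : MS G z) :
    mDD a b (fun w => F w + G w) z = mDD a b F z + mDD a b G z := by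
  ext i j
  simp only [mDD, Matrix.of_apply, Matrix.add_apply]
  exact DD_add (hF.diff i j) (hG.diff i j)

lemma mDD_sub {a b : ℂ} {F G : ℂ → Matrix (Fin n) (Fin n) ℂ} {z : ℂ} (hF : MS F z) (hG : MS G z) :
    mDD a b (fun w => F w - G w) z = mDD a b F z - mDD a b G z := by
  ext i j
  simp only [mDD, Matrix.of_apply, Matrix.sub_apply]
  exact DD_sub (hF.diff i j) (hG.diff i j)

lemma mDD_congr {a b : ℂ} {F G : ℂ → Matrix (Fin n) (Fin n) ℂ} {z : ℂ} (h : F =ᶠ[𝓝 z] G) :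
    mDD a b F z = mDD a b G z := by
  ext i j
  simp only [mDD, Matrix.of_apply]
  exact DD_congr (h.mono fun w hw => by simp only [hw])

lemma mDD_const {a b : ℂ} (A : Matrix (Fin n) (Fin n) ℂ) (z : ℂ) :
    mDD a b (fun _ => A) z = 0 := by
  ext i j
  simp only [mDD, Matrix.of_apply, DD_const, Matrix.zero_apply]

lemma mDD_inv {a b : ℂ} {F : ℂ → Matrix (Fin n) (Fin n) ℂ} {z : ℂ} (hF : MS F z)
    (h0 : (F z).det ≠ 0) :
    mDD a b (fun w => (F w)⁻¹) z = -((F z)⁻¹ * mDD a b F z * (F z)⁻¹) := by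
  have h1 : (fun w => (F w)⁻¹ * F w) =ᶠ[𝓝 z] fun _ => 1 := by
    have hc : ContinuousAt (fun w => (F w).det) z := hF.det.continuousAt
    filter_upwards [hc.eventually_ne h0] with w hw
    exact Matrix.nonsing_inv_mul _ (isUnit_iff_ne_zero.2 hw)
  have h2 := mDD_mul (a := a) (b := b) (hF.inv h0) hF
  rw [mDD_congr h1, mDD_const] at h2
  have h3 : (F z) * (F z)⁻¹ = 1 := Matrix.mul_nonsing_inv _ (isUnit_iff_ne_zero.2 h0)
  have h4 : mDD a b (fun w => (F w)⁻¹) z * F z * (F z)⁻¹ =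
      -((F z)⁻¹ * mDD a b F z) * (F z)⁻¹ := by
    rw [eq_neg_of_add_eq_zero_left h2.symm]
  rw [Matrix.mul_assoc, h3, Matrix.mul_one] at h4
  rw [h4, Matrix.neg_mul]

lemma DD_trace {a b : ℂ} {F : ℂ → Matrix (Fin n) (Fin n) ℂ} {z : ℂ} (hF : MS F z) :
    DD a b (fun w => (F w).trace) z = (mDD a b F z).trace := by
  simp only [Matrix.trace, Matrix.diag_apply]
  rw [DD_sum (fun k _ => hF.diff k k)]
  rfl

lemma mdz_conjTranspose {F : ℂ → Matrix (Fin n) (Fin n) ℂ} {z : ℂ} (hF : MS F z) :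
    mdz (fun w => (F w)ᴴ) z = (mdzbar F z)ᴴ := by
  ext i j
  simp only [mdz, mdzbar, Matrix.of_apply, Matrix.conjTranspose_apply]
  exact dz_conj (hF.diff j i)

lemma mdzbar_conjTranspose {F : ℂ → Matrix (Fin n) (Fin n) ℂ} {z : ℂ} (hF : MS F z) :
    mdzbar (fun w => (F w)ᴴ) z = (mdz F z)ᴴ := by
  ext i j
  simp only [mdz, mdzbar, Matrix.of_apply, Matrix.conjTranspose_apply]
  exact dzbar_conj (hF.diff j i)

end Q198.Hit
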