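import Mathlib

/-! # Harmonic metrics on Higgs bundles in the Hitchin section over `ℂ` and `ℂ*`

Definitions for MP_4f0bc7_gt. -/

namespace Q198.Hit

open Complex Matrix
open scoped ContDiff ComplexOrder

/-- The Wirtinger derivative `∂f/∂z`. -/
noncomputable def dz (f : ℂ → ℂ) (z : ℂ) : ℂ := (fderiv ℝ f z 1 - I * fderiv ℝ f z I) / 2

/-- The Wirtinger derivative `∂f/∂z̄`. -/
noncomputable def dzbar (f : ℂ → ℂ) (z : ℂ) : ℂ := (fderiv ℝ f z 1 + I * fderiv ℝ f z I) / 2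

variable {n : ℕ}

/-- `∂F/∂z` for matrix valued functions, entry by entry. -/
noncomputable def mdz (F : ℂ → Matrix (Fin n) (Fin n) ℂ) (z : ℂ) : Matrix (Fin n) (Fin n) ℂ :=
  Matrix.of fun i j => dz (fun w => F w i j) z

/-- `∂F/∂z̄` for matrix valued functions, entry by entry. -/
noncomputable def mdzbar (F : ℂ → Matrix (Fin n) (Fin n) ℂ) (z : ℂ) : Matrix (Fin n) (Fin n) ℂ :=
  Matrix.of fun i j => dzbar (fun w => F w i j) z

/-- The adjoint of `A` with respect to the Hermitian form `⟨u, v⟩ = vᴴ H u`. -/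
noncomputable def adj (H A : Matrix (Fin n) (Fin n) ℂ) : Matrix (Fin n) (Fin n) ℂ := H⁻¹ * Aᴴ * H

/-- `H` (the Gram matrix, `⟨u, v⟩ = vᴴ H u`) is a harmonic metric on `U` for the Higgs bundle
`(𝒪ⁿ, θ = Φ dz)`. The Chern connection form is `H⁻¹ ∂H`, so that
`F_h + [θ, θ^{*h}] = (- ∂_z̄ (H⁻¹ ∂_z H) + Φ Φ^{*h} - Φ^{*h} Φ) dz ∧ dz̄`. -/
structure IsHarmonicMetric (U : Set ℂ) (Φ H : ℂ → Matrix (Fin n) (Fin n) ℂ) : Prop where
  smooth : ∀ i j, ContDiffOn ℝ ∞ (fun z => H z i j) U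
  posDef : ∀ z ∈ U, (H z).PosDef
  hitchin : ∀ z ∈ U, mdzbar (fun w => (H w)⁻¹ * mdz H w) z =
    Φ z * adj (H z) (Φ z) - adj (H z) (Φ z) * Φ z

/-- The matrix of the Hitchin section: `1` on the subdiagonal and `q j` on the `(j-1)`-th
superdiagonal, `j = 2, …, n`. -/
def sectionMatrix (n : ℕ) (q : ℕ → ℂ) : Matrix (Fin n) (Fin n) ℂ := fun i j =>
  if (i : ℕ) = (j : ℕ) + 1 then 1 else if (i : ℕ) < (j : ℕ) then q ((j : ℕ) - (i : ℕ) + 1) else 0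

/-- The Higgs field `θ(q) = Φ dz` of the Hitchin section in the frame `τ^{n-1}, τ^{n-3}, …, τ^{1-n}`
of `𝕂_{X,n}`, where `τ` is a frame of the square root of the canonical bundle, `τ² = κ dz`, and
`q_j = Q_j τ^{2j} = Q_j (κ dz)^j`. -/
def higgs (n : ℕ) (κ : ℂ → ℂ) (Q : ℕ → ℂ → ℂ) (z : ℂ) : Matrix (Fin n) (Fin n) ℂ :=
  κ z • sectionMatrix n (fun j => Q j z)

end Q198.Hit
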