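import Pool.Agent.Q198.Hit.Boch

/-! # No harmonic metrics for constant non-diagonalizable differentials -/

namespace Q198.Hit

open Complex Matrix Filter Topology
open scoped ContDiff ComplexOrder

variable {n : ℕ}

/-- Pull back of a harmonic metric by a holomorphic map `ℂ → U`. -/
theorem pullback {U : Set ℂ} (hU : IsOpen U) {Φ H : ℂ → Matrix (Fin n) (Fin n) ℂ}
    (h : IsHarmonicMetric U Φ H) {g g' : ℂ → ℂ} (hg : ∀ ζ, HasDerivAt g (g' ζ) ζ)
    (hg' : Differentiable ℂ g') (hgU : ∀ ζ, g ζ ∈ U) :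
    IsHarmonicMetric Set.univ (fun ζ => g' ζ • Φ (g ζ)) (fun ζ => H (g ζ)) := by
  have hgd : Differentiable ℂ g := fun ζ => (hg ζ).differentiableAt
  have hMS : ∀ ζ, MS H (g ζ) := fun ζ i j => (h.smooth i j).contDiffAt (hU.mem_nhds (hgU ζ))
  have hdet : ∀ ζ, (H (g ζ)).det ≠ 0 := fun ζ => (h.posDef _ (hgU ζ)).det_pos.ne'
  refine ⟨fun i j => ?_, fun ζ _ => h.posDef _ (hgU ζ), fun ζ _ => ?_⟩
  · intro ζ _
    refine ContDiffAt.contDiffWithinAt ?_
    exact (hMS ζ i j).comp ζ ((hgd.contDiff (n := ∞)).restrict_scalars ℝ).contDiffAt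
  · have e1 : ∀ w, mdz (fun ζ => H (g ζ)) w = g' w • mdz H (g w) := by
      intro w
      ext i j
      simp only [mdz, Matrix.of_apply, Matrix.smul_apply, smul_eq_mul]
      rw [dz_comp ((hMS w).diff i j) (hg w), mul_comm]
    have e2 : (fun w => (H (g w))⁻¹ * mdz (fun ζ => H (g ζ)) w) = fun w => g' w • Gf H (g w) := by
      funext w
      rw [e1, Matrix.mul_smul]; rfl
    have hG : MS (Gf H) (g ζ) := ((hMS ζ).inv (hdet ζ)).mul (hMS ζ).mdz
    have hgr : DifferentiableAt ℝ g ζ := (hgd ζ).restrictScalars ℝ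
    have hgr' : DifferentiableAt ℝ g' ζ := (hg' ζ).restrictScalars ℝ
    rw [e2]
    have e3 : mdzbar (fun w => g' w • Gf H (g w)) ζ =
        (g' ζ * (starRingEnd ℂ) (g' ζ)) • mdzbar (Gf H) (g ζ) := by
      ext i j
      simp only [mdzbar, Matrix.of_apply, Matrix.smul_apply, smul_eq_mul]
      have hGg : DifferentiableAt ℝ (fun w => Gf H (g w) i j) ζ :=
        DifferentiableAt.comp (g := fun w => Gf H w i j) (f := g) ζ (hG.diff i j) hgr
      rw [dzbar_mul (f := g') (g := fun w => Gf H (g w) i j) hgr' hGg,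
        dzbar_holo (hg' ζ).hasDerivAt]
      rw [dzbar_comp (f := fun w => Gf H w i j) (hG.diff i j) (hg ζ)]
      ring
    have e4 : mdzbar (Gf H) (g ζ) = Φ (g ζ) * adj (H (g ζ)) (Φ (g ζ)) -
        adj (H (g ζ)) (Φ (g ζ)) * Φ (g ζ) := h.hitchin _ (hgU ζ)
    have e5 : adj (H (g ζ)) (g' ζ • Φ (g ζ)) = (starRingEnd ℂ) (g' ζ) • adj (H (g ζ)) (Φ (g ζ)) := by
      simp only [adj, Matrix.conjTranspose_smul, Matrix.mul_smul, Matrix.smul_mul]
      rfl
    rw [e3, e4, e5]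
    simp only [Matrix.mul_smul, Matrix.smul_mul, smul_smul, smul_sub]
    rw [mul_comm ((starRingEnd ℂ) (g' ζ)) (g' ζ)]

/-- the diagonal gauge transformation -/
noncomputable def Dg (n : ℕ) (w : ℂ) : Matrix (Fin n) (Fin n) ℂ :=
  Matrix.diagonal fun i => w ^ (i : ℕ)

lemma Dg_mul_inv {w : ℂ} (hw : w ≠ 0) : Dg n w * Dg n w⁻¹ = 1 := by
  rw [Dg, Dg, Matrix.diagonal_mul_diagonal]
  have : (fun i : Fin n => w ^ (i : ℕ) * w⁻¹ ^ (i : ℕ)) = fun _ => 1 := by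
    funext i; rw [← mul_pow, mul_inv_cancel₀ hw, one_pow]
  rw [this]; exact Matrix.diagonal_one

lemma Dg_inv_mul {w : ℂ} (hw : w ≠ 0) : Dg n w⁻¹ * Dg n w = 1 := by
  have := Dg_mul_inv (n := n) (inv_ne_zero hw)
  rwa [inv_inv] at this

lemma section_gauge {w : ℂ} (hw : w ≠ 0) (c : ℕ → ℂ) :
    w • sectionMatrix n (fun j => c j / w ^ j) = Dg n w * sectionMatrix n c * Dg n w⁻¹ := by
  ext i j
  rw [Dg, Dg, Matrix.mul_diagonal, Matrix.diagonal_mul]
  simp only [Matrix.smul_apply, sectionMatrix, smul_eq_mul]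
  split_ifs with h1 h2
  · rw [h1, pow_succ, inv_pow]
    field_simp
  · obtain ⟨d, hd⟩ : ∃ d, (j : ℕ) = (i : ℕ) + d := ⟨(j : ℕ) - i, by omega⟩
    have e : (j : ℕ) - (i : ℕ) + 1 = d + 1 := by omega
    rw [e, hd, inv_pow, pow_add, pow_succ]
    field_simp
    ring
  · simp

lemma charpoly_gauge {w : ℂ} (hw : w ≠ 0) (A : Matrix (Fin n) (Fin n) ℂ) :
    (Dg n w * A * Dg n w⁻¹).charpoly = A.charpoly := by
  rw [Matrix.charpoly_mul_comm, ← Matrix.mul_assoc, Dg_inv_mul hw, Matrix.one_mul]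

lemma mulVec_gauge {w : ℂ} (hw : w ≠ 0) (A : Matrix (Fin n) (Fin n) ℂ) (l : ℂ) (u : Fin n → ℂ) :
    (Dg n w * A * Dg n w⁻¹ - l • (1 : Matrix (Fin n) (Fin n) ℂ)) *ᵥ (Dg n w *ᵥ u) =
      Dg n w *ᵥ ((A - l • (1 : Matrix (Fin n) (Fin n) ℂ)) *ᵥ u) := by
  rw [Matrix.mulVec_mulVec, Matrix.mulVec_mulVec]
  congr 1
  rw [Matrix.sub_mul, Matrix.mul_sub, Matrix.mul_assoc _ _ (Dg n w), Dg_inv_mul hw, Matrix.mul_one,
    Matrix.smul_mul, Matrix.mul_smul, Matrix.one_mul, Matrix.mul_one]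

/-- General non-existence theorem. -/
theorem no_metric {U : Set ℂ} (hU : IsOpen U) {κ σ g : ℂ → ℂ}
    (hκ : DifferentiableOn ℂ κ U) (hκ0 : ∀ z ∈ U, κ z ≠ 0)
    (hσ : DifferentiableOn ℂ σ U) (hσ0 : ∀ z ∈ U, σ z ≠ 0)
    (hg : ∀ ζ, HasDerivAt g (σ (g ζ)) ζ) (hgU : ∀ ζ, g ζ ∈ U)
    (c : ℕ → ℂ) (l : ℂ) (u : Fin n → ℂ)
    (hu2 : (sectionMatrix n c - l • (1 : Matrix (Fin n) (Fin n) ℂ)) *ᵥ
      ((sectionMatrix n c - l • (1 : Matrix (Fin n) (Fin n) ℂ)) *ᵥ u) = 0)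
    (hu1 : (sectionMatrix n c - l • (1 : Matrix (Fin n) (Fin n) ℂ)) *ᵥ u ≠ 0) :
    ¬ ∃ H, IsHarmonicMetric U (higgs n κ (fun j z => c j / (κ z * σ z) ^ j)) H := by
  rintro ⟨H, hH⟩
  have hgd : Differentiable ℂ g := fun ζ => (hg ζ).differentiableAt
  have hcomp : ∀ f : ℂ → ℂ, DifferentiableOn ℂ f U → Differentiable ℂ (fun ζ => f (g ζ)) :=
    fun f hf ζ => ((hf (g ζ) (hgU ζ)).differentiableAt (hU.mem_nhds (hgU ζ))).comp ζ (hgd ζ)
  have hp := pullback hU hH hg (hcomp σ hσ) hgU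
  set w : ℂ → ℂ := fun ζ => κ (g ζ) * σ (g ζ) with hw
  have hw0 : ∀ ζ, w ζ ≠ 0 := fun ζ => mul_ne_zero (hκ0 _ (hgU ζ)) (hσ0 _ (hgU ζ))
  have hwd : Differentiable ℂ w := (hcomp κ hκ).mul (hcomp σ hσ)
  have e1 : (fun ζ => σ (g ζ) • higgs n κ (fun j z => c j / (κ z * σ z) ^ j) (g ζ)) =
      fun ζ => Dg n (w ζ) * sectionMatrix n c * Dg n (w ζ)⁻¹ := by
    funext ζ
    rw [higgs, smul_smul, mul_comm (σ (g ζ)) (κ (g ζ)), ← section_gauge (hw0 ζ)]
  rw [e1] at hp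
  have hd : ∀ i j, Differentiable ℂ
      (fun ζ => (Dg n (w ζ) * sectionMatrix n c * Dg n (w ζ)⁻¹) i j) := by
    intro i j
    have : (fun ζ => (Dg n (w ζ) * sectionMatrix n c * Dg n (w ζ)⁻¹) i j) =
        fun ζ => w ζ ^ (i : ℕ) * sectionMatrix n c i j * (w ζ)⁻¹ ^ (j : ℕ) := by
      funext ζ
      rw [Dg, Dg, Matrix.mul_diagonal, Matrix.diagonal_mul]
    rw [this]
    exact ((hwd.pow _).mul_const _).mul ((hwd.inv hw0).pow _)
  have hfin := liouville hp hd (fun z => by rw [charpoly_gauge (hw0 z), charpoly_gauge (hw0 0)]) l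
    (Dg n (w 0) *ᵥ u) (by
      rw [mulVec_gauge (hw0 0), mulVec_gauge (hw0 0), hu2, Matrix.mulVec_zero])
  rw [mulVec_gauge (hw0 0)] at hfin
  apply hu1
  have h2 : Dg n (w 0)⁻¹ *ᵥ (Dg n (w 0) *ᵥ ((sectionMatrix n c -
      l • (1 : Matrix (Fin n) (Fin n) ℂ)) *ᵥ u)) = 0 := by rw [hfin, Matrix.mulVec_zero]
  rwa [Matrix.mulVec_mulVec, Dg_inv_mul (hw0 0), Matrix.one_mulVec] at h2

/-- the constants of the counterexample -/
noncomputable def cc (m : ℕ) (a b : ℂ) (j : ℕ) : ℂ :=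
  if j = m + 2 then a else if j = m + 3 then b else 0

lemma section_mulVec (m : ℕ) (a b : ℂ) (v : ℕ → ℂ) (i : Fin (m + 3)) :
    (sectionMatrix (m + 3) (cc m a b) *ᵥ (fun i : Fin (m + 3) => v i)) i =
      if (i : ℕ) = 0 then a * v (m + 1) + b * v (m + 2) else
      if (i : ℕ) = 1 then v 0 + a * v (m + 2) else v ((i : ℕ) - 1) := by
  have h1 : (sectionMatrix (m + 3) (cc m a b) *ᵥ (fun i : Fin (m + 3) => v i)) i =
      ∑ j : Fin (m + 3), (fun j : ℕ => ((if (i : ℕ) = j + 1 then v j else 0) +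
        (if (i : ℕ) < j ∧ j - i + 1 = m + 2 then a * v j else 0)) +
        (if (i : ℕ) < j ∧ j - i + 1 = m + 3 then b * v j else 0)) j := by
    rw [Matrix.mulVec, dotProduct]
    refine Finset.sum_congr rfl fun j _ => ?_
    simp only [sectionMatrix, cc]
    split_ifs <;> first | (exfalso; omega) | ring
  rw [h1, Fin.sum_univ_eq_sum_range (fun j : ℕ => ((if (i : ℕ) = j + 1 then v j else 0) +
        (if (i : ℕ) < j ∧ j - i + 1 = m + 2 then a * v j else 0)) +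
        (if (i : ℕ) < j ∧ j - i + 1 = m + 3 then b * v j else 0)) (m + 3),
    Finset.sum_add_distrib, Finset.sum_add_distrib]
  have hi : (i : ℕ) < m + 3 := i.2
  have single : ∀ (p : ℕ → Prop) [DecidablePred p] (f : ℕ → ℂ) (j0 : ℕ), j0 < m + 3 →
      (∀ j < m + 3, p j ↔ j = j0) →
      ∑ j ∈ Finset.range (m + 3), (if p j then f j else 0) = f j0 := by
    intro p _ f j0 h0 hp
    rw [Finset.sum_eq_single j0]
    · rw [if_pos ((hp j0 h0).2 rfl)]
    · intro j hj hne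
      rw [if_neg (fun h => hne ((hp j (Finset.mem_range.1 hj)).1 h))]
    · intro h; exact absurd (Finset.mem_range.2 h0) h
  have none : ∀ (p : ℕ → Prop) [DecidablePred p] (f : ℕ → ℂ),
      (∀ j < m + 3, ¬ p j) → ∑ j ∈ Finset.range (m + 3), (if p j then f j else 0) = 0 := by
    intro p _ f hp
    refine Finset.sum_eq_zero fun j hj => ?_
    rw [if_neg (hp j (Finset.mem_range.1 hj))]
  by_cases c0 : (i : ℕ) = 0
  · rw [if_pos c0, none _ _ (fun j _ => by omega), single _ _ (m + 1) (by omega)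
      (fun j hj => by omega), single _ _ (m + 2) (by omega) (fun j hj => by omega)]
    ring
  · rw [if_neg c0]
    by_cases c1 : (i : ℕ) = 1
    · rw [if_pos c1, single _ _ 0 (by omega) (fun j _ => by omega), single _ _ (m + 2) (by omega)
        (fun j hj => by omega), none _ _ (fun j hj => by omega)]
      ring
    · rw [if_neg c1, single _ _ ((i : ℕ) - 1) (by omega) (fun j _ => by omega),
        none _ _ (fun j hj => by omega), none _ _ (fun j hj => by omega)]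
      ring

/-- The Jordan chain of the counterexample: `n = m + 3`, `q_{n-1} = n / 2`, `q_n = 1 - n`. -/
lemma jordan (m : ℕ) :
    ∃ u : Fin (m + 3) → ℂ,
    (sectionMatrix (m + 3) (cc m (((m : ℂ) + 3) / 2) (-((m : ℂ) + 2))) -
      (1 : ℂ) • (1 : Matrix (Fin (m + 3)) (Fin (m + 3)) ℂ)) *ᵥ
      ((sectionMatrix (m + 3) (cc m (((m : ℂ) + 3) / 2) (-((m : ℂ) + 2))) -
      (1 : ℂ) • (1 : Matrix (Fin (m + 3)) (Fin (m + 3)) ℂ)) *ᵥ u) = 0 ∧
    (sectionMatrix (m + 3) (cc m (((m : ℂ) + 3) / 2) (-((m : ℂ) + 2))) -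
      (1 : ℂ) • (1 : Matrix (Fin (m + 3)) (Fin (m + 3)) ℂ)) *ᵥ u ≠ 0 := by
  set Θ := sectionMatrix (m + 3) (cc m (((m : ℂ) + 3) / 2) (-((m : ℂ) + 2))) with hΘ
  set v : ℕ → ℂ := fun i => if i = 0 then 1 - ((m : ℂ) + 3) / 2 else 1 with hv
  set u : ℕ → ℂ := fun i => if i = 0 then 1 + ((m : ℂ) + 3) / 2 * ((m : ℂ) + 1) else
    -((i : ℂ) - 1) with hu
  have h1 : (Θ - (1 : ℂ) • (1 : Matrix (Fin (m + 3)) (Fin (m + 3)) ℂ)) *ᵥ (fun i : Fin (m + 3) => u i)
      = fun i : Fin (m + 3) => v i := by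
    funext i
    rw [one_smul, Matrix.sub_mulVec, Matrix.one_mulVec, Pi.sub_apply, hΘ, section_mulVec]
    have hi : (i : ℕ) < m + 3 := i.2
    split_ifs with c0 c1
    · simp only [hu, hv, c0, if_true, if_neg (show ¬ (m + 1 = 0) by omega),
        if_neg (show ¬ (m + 2 = 0) by omega)]
      push_cast; ring
    · simp only [hu, hv, c1, if_true, if_neg (show ¬ (1 = 0) by omega),
        if_neg (show ¬ (m + 2 = 0) by omega)]
      push_cast; ring
    · obtain ⟨k, hk⟩ : ∃ k, (i : ℕ) = k + 2 := ⟨(i : ℕ) - 2, by omega⟩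
      simp only [hu, hv, hk, if_neg (show ¬ (k + 2 = 0) by omega),
        if_neg (show ¬ (k + 2 - 1 = 0) by omega)]
      have : k + 2 - 1 = k + 1 := by omega
      rw [this]; push_cast; ring
  have h2 : (Θ - (1 : ℂ) • (1 : Matrix (Fin (m + 3)) (Fin (m + 3)) ℂ)) *ᵥ (fun i : Fin (m + 3) => v i)
      = 0 := by
    funext i
    rw [one_smul, Matrix.sub_mulVec, Matrix.one_mulVec, Pi.sub_apply, hΘ, section_mulVec]
    have hi : (i : ℕ) < m + 3 := i.2
    split_ifs with c0 c1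
    · simp only [hv, c0, if_true, if_neg (show ¬ (m + 1 = 0) by omega),
        if_neg (show ¬ (m + 2 = 0) by omega), Pi.zero_apply]
      ring
    · simp only [hv, c1, if_true, if_neg (show ¬ (1 = 0) by omega),
        if_neg (show ¬ (m + 2 = 0) by omega), Pi.zero_apply]
      ring
    · obtain ⟨k, hk⟩ : ∃ k, (i : ℕ) = k + 2 := ⟨(i : ℕ) - 2, by omega⟩
      simp only [hv, hk, if_neg (show ¬ (k + 2 = 0) by omega),
        if_neg (show ¬ (k + 2 - 1 = 0) by omega), Pi.zero_apply]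
      ring
  refine ⟨fun i => u i, ?_, ?_⟩
  · rw [h1, h2]
  · rw [h1]
    intro h
    have := congrFun h (Fin.last (m + 2))
    simp [hv] at this

end Q198.Hit
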