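import Pool.Agent.Q198.Hit.Defs

/-! # Wirtinger calculus -/

namespace Q198.Hit

open Complex
open scoped ContDiff

lemma dz_of_hasFDerivAt {f : ℂ → ℂ} {f' : ℂ →L[ℝ] ℂ} {z : ℂ} (h : HasFDerivAt f f' z) :
    dz f z = (f' 1 - I * f' I) / 2 := by rw [dz, h.fderiv]

lemma dzbar_of_hasFDerivAt {f : ℂ → ℂ} {f' : ℂ →L[ℝ] ℂ} {z : ℂ} (h : HasFDerivAt f f' z) :
    dzbar f z = (f' 1 + I * f' I) / 2 := by rw [dzbar, h.fderiv]

section rules

variable {f g : ℂ → ℂ} {z : ℂ} (hf : DifferentiableAt ℝ f z) (hg : DifferentiableAt ℝ g z)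

include hf hg in
lemma dz_add : dz (fun w => f w + g w) z = dz f z + dz g z := by
  rw [dz_of_hasFDerivAt (HasFDerivAt.fun_add hf.hasFDerivAt hg.hasFDerivAt), dz, dz]
  simp only [add_apply]; ring

include hf hg in
lemma dzbar_add : dzbar (fun w => f w + g w) z = dzbar f z + dzbar g z := by
  rw [dzbar_of_hasFDerivAt (HasFDerivAt.fun_add hf.hasFDerivAt hg.hasFDerivAt), dzbar, dzbar]
  simp only [add_apply]; ring

include hf hg in
lemma dz_mul : dz (fun w => f w * g w) z = dz f z * g z + f z * dz g z := by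
  rw [dz_of_hasFDerivAt (HasFDerivAt.fun_mul hf.hasFDerivAt hg.hasFDerivAt), dz, dz]
  simp only [add_apply, smul_apply, smul_eq_mul]; ring

include hf hg in
lemma dzbar_mul : dzbar (fun w => f w * g w) z = dzbar f z * g z + f z * dzbar g z := by
  rw [dzbar_of_hasFDerivAt (HasFDerivAt.fun_mul hf.hasFDerivAt hg.hasFDerivAt), dzbar, dzbar]
  simp only [add_apply, smul_apply, smul_eq_mul]; ring

end rules

lemma dz_sum {ι : Type*} {s : Finset ι} {f : ι → ℂ → ℂ} {z : ℂ}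
    (hf : ∀ i ∈ s, DifferentiableAt ℝ (f i) z) :
    dz (fun w => ∑ i ∈ s, f i w) z = ∑ i ∈ s, dz (f i) z := by
  rw [dz_of_hasFDerivAt (HasFDerivAt.fun_sum (fun i hi => (hf i hi).hasFDerivAt))]
  simp only [dz, sum_apply, Finset.mul_sum]
  rw [← Finset.sum_sub_distrib, Finset.sum_div]

lemma dzbar_sum {ι : Type*} {s : Finset ι} {f : ι → ℂ → ℂ} {z : ℂ}
    (hf : ∀ i ∈ s, DifferentiableAt ℝ (f i) z) :
    dzbar (fun w => ∑ i ∈ s, f i w) z = ∑ i ∈ s, dzbar (f i) z := by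
  rw [dzbar_of_hasFDerivAt (HasFDerivAt.fun_sum (fun i hi => (hf i hi).hasFDerivAt))]
  simp only [dzbar, sum_apply, Finset.mul_sum]
  rw [← Finset.sum_add_distrib, Finset.sum_div]

lemma dz_const (c z : ℂ) : dz (fun _ => c) z = 0 := by
  rw [dz_of_hasFDerivAt (hasFDerivAt_const c z)]; simp

lemma dzbar_const (c z : ℂ) : dzbar (fun _ => c) z = 0 := by
  rw [dzbar_of_hasFDerivAt (hasFDerivAt_const c z)]; simp

lemma hasFDerivAt_real {f : ℂ → ℂ} {c z : ℂ} (h : HasDerivAt f c z) :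
    HasFDerivAt f ((ContinuousLinearMap.toSpanSingleton ℂ c).restrictScalars ℝ) z :=
  h.hasFDerivAt.restrictScalars ℝ

lemma dz_holo {f : ℂ → ℂ} {c z : ℂ} (h : HasDerivAt f c z) : dz f z = c := by
  rw [dz_of_hasFDerivAt (hasFDerivAt_real h)]
  simp
  linear_combination (-c / 2) * I_mul_I

lemma dzbar_holo {f : ℂ → ℂ} {c z : ℂ} (h : HasDerivAt f c z) : dzbar f z = 0 := by
  rw [dzbar_of_hasFDerivAt (hasFDerivAt_real h)]
  simp
  linear_combination c * I_mul_I

lemma hasFDerivAt_conj {f : ℂ → ℂ} {f' : ℂ →L[ℝ] ℂ} {z : ℂ} (h : HasFDerivAt f f' z) :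
    HasFDerivAt (fun w => (starRingEnd ℂ) (f w)) ((conjCLE : ℂ →L[ℝ] ℂ).comp f') z :=
  (conjCLE.hasFDerivAt (x := f z)).comp z h

lemma dz_conj {f : ℂ → ℂ} {z : ℂ} (hf : DifferentiableAt ℝ f z) :
    dz (fun w => (starRingEnd ℂ) (f w)) z = (starRingEnd ℂ) (dzbar f z) := by
  rw [dz_of_hasFDerivAt (hasFDerivAt_conj hf.hasFDerivAt), dzbar]
  have h2 : (starRingEnd ℂ) 2 = 2 := Complex.conj_ofNat 2
  simp [h2]
  ring

lemma dzbar_conj {f : ℂ → ℂ} {z : ℂ} (hf : DifferentiableAt ℝ f z) :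
    dzbar (fun w => (starRingEnd ℂ) (f w)) z = (starRingEnd ℂ) (dz f z) := by
  rw [dzbar_of_hasFDerivAt (hasFDerivAt_conj hf.hasFDerivAt), dz]
  have h2 : (starRingEnd ℂ) 2 = 2 := Complex.conj_ofNat 2
  simp [h2]

lemma dz_comp {f g : ℂ → ℂ} {c z : ℂ} (hf : DifferentiableAt ℝ f (g z)) (hg : HasDerivAt g c z) :
    dz (fun w => f (g w)) z = dz f (g z) * c := by
  have hc : HasFDerivAt (fun w => f (g w)) ((fderiv ℝ f (g z)).comp
      ((ContinuousLinearMap.toSpanSingleton ℂ c).restrictScalars ℝ)) z :=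
    hf.hasFDerivAt.comp z (hasFDerivAt_real hg)
  rw [dz_of_hasFDerivAt hc, dz]
  have e : ∀ a b : ℝ, fderiv ℝ f (g z) ((a : ℂ) + b * I) =
      a * fderiv ℝ f (g z) 1 + b * fderiv ℝ f (g z) I := by
    intro a b
    have h1 : (a : ℂ) + b * I = a • (1 : ℂ) + b • I := by simp
    rw [h1, map_add, map_smul, map_smul]; simp
  have h1 : fderiv ℝ f (g z) c = c.re * fderiv ℝ f (g z) 1 + c.im * fderiv ℝ f (g z) I := by
    rw [← e, re_add_im]
  have h2 : fderiv ℝ f (g z) (I * c) = -c.im * fderiv ℝ f (g z) 1 + c.re * fderiv ℝ f (g z) I := by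
    have := e (-c.im) c.re
    push_cast at this
    rw [← this]
    congr 1
    apply Complex.ext <;> simp
  have h3 : c = c.re + c.im * I := (re_add_im c).symm
  simp only [ContinuousLinearMap.comp_apply, ContinuousLinearMap.coe_restrictScalars',
    ContinuousLinearMap.toSpanSingleton_apply, smul_eq_mul, one_mul]
  rw [h1, h2]
  conv_rhs => rw [h3]
  linear_combination (c.im / 2 * fderiv ℝ f (g z) I) * I_mul_I

lemma dzbar_comp {f g : ℂ → ℂ} {c z : ℂ} (hf : DifferentiableAt ℝ f (g z)) (hg : HasDerivAt g c z) :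
    dzbar (fun w => f (g w)) z = dzbar f (g z) * (starRingEnd ℂ) c := by
  have hc : HasFDerivAt (fun w => f (g w)) ((fderiv ℝ f (g z)).comp
      ((ContinuousLinearMap.toSpanSingleton ℂ c).restrictScalars ℝ)) z :=
    hf.hasFDerivAt.comp z (hasFDerivAt_real hg)
  rw [dzbar_of_hasFDerivAt hc, dzbar]
  have e : ∀ a b : ℝ, fderiv ℝ f (g z) ((a : ℂ) + b * I) =
      a * fderiv ℝ f (g z) 1 + b * fderiv ℝ f (g z) I := by
    intro a b
    have h1 : (a : ℂ) + b * I = a • (1 : ℂ) + b • I := by simp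
    rw [h1, map_add, map_smul, map_smul]; simp
  have h1 : fderiv ℝ f (g z) c = c.re * fderiv ℝ f (g z) 1 + c.im * fderiv ℝ f (g z) I := by
    rw [← e, re_add_im]
  have h2 : fderiv ℝ f (g z) (I * c) = -c.im * fderiv ℝ f (g z) 1 + c.re * fderiv ℝ f (g z) I := by
    have := e (-c.im) c.re
    push_cast at this
    rw [← this]
    congr 1
    apply Complex.ext <;> simp
  have h3 : (starRingEnd ℂ) c = c.re - c.im * I := by
    apply Complex.ext <;> simp
  simp only [ContinuousLinearMap.comp_apply, ContinuousLinearMap.coe_restrictScalars',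
    ContinuousLinearMap.toSpanSingleton_apply, smul_eq_mul, one_mul]
  rw [h1, h2, h3]
  linear_combination (c.im / 2 * fderiv ℝ f (g z) I) * I_mul_I

/-- Regularity of the derivatives. -/
lemma contDiff_dz {f : ℂ → ℂ} {k : ℕ} (hf : ContDiff ℝ (k + 1) f) : ContDiff ℝ k (dz f) := by
  have h : ContDiff ℝ k (fderiv ℝ f) := hf.fderiv_right (by norm_cast)
  have h1 : ContDiff ℝ k (fun z => fderiv ℝ f z 1) := h.clm_apply contDiff_const
  have h2 : ContDiff ℝ k (fun z => fderiv ℝ f z I) := h.clm_apply contDiff_const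
  have : dz f = fun z => (fderiv ℝ f z 1 - I * fderiv ℝ f z I) / 2 := rfl
  rw [this]
  exact (h1.sub (contDiff_const.mul h2)).div_const 2

end Q198.Hit
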